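import Pool.Agent.H40.ISO.Hta

/-!
# The coefficients of reference charts, the slopes of the last level enter once
-/

set_option autoImplicit false

namespace Pool.OWN72

open Finset MvPolynomial
open Pool.Agent.H49.Ent Pool.Agent.H32.Dense Pool.STK Pool.KS3 Pool.KA Pool.KSAT Pool.PB Pool.GEN
open Pool.K2S Pool.S6C Pool.STAT Pool.STAT.CLO Pool.STAT.Glu Pool.STAT.OKI

variable {m J : ℕ}

theorem pwn_le (n q : ℕ) : pwn n q ≤ pwn n 1 * (q + 1) := by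
  unfold pwn
  obtain ⟨a, ha⟩ : ∃ a, a = n * n * n := ⟨_, rfl⟩
  obtain ⟨b, hb⟩ : ∃ b, b = n * n := ⟨_, rfl⟩
  have e1 : n * ((n + q) * n + n + 1) = a + b * q + b + n := by rw [ha, hb]; ring
  have e2 : n * ((n + 1) * n + n + 1) * (q + 1) = (a + 2 * b + n) * (q + 1) := by
    rw [ha, hb]; ring
  rw [e1, e2]
  nlinarith [Nat.zero_le (a * q), Nat.zero_le (b * q), Nat.zero_le (n * q)]

/-- The exponent of the loss. -/
def rfm (n e s x : ℕ) : ℕ :=
  pwn n (pwn n (e + x) + e + x + 2) + pwn n (e + x) + s + x + 3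

theorem rfm_le (n e s x : ℕ) :
    rfm n e s x ≤ (pwn n 1 * pwn n 1 + 5 * pwn n 1 + 3) * (e + s + x + 1) := by
  unfold rfm
  obtain ⟨p, hp⟩ : ∃ p, p = pwn n 1 := ⟨_, rfl⟩
  obtain ⟨a, ha⟩ : ∃ a, a = pwn n (e + x) := ⟨_, rfl⟩
  have h1 := pwn_le n (e + x)
  have h2 := pwn_le n (pwn n (e + x) + e + x + 2)
  rw [← hp, ← ha] at h1
  rw [← hp, ← ha] at h2
  rw [← hp, ← ha]
  have h3 : p * (a + e + x + 2 + 1) ≤ p * (p * (e + x + 1) + e + x + 2 + 1) :=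
    Nat.mul_le_mul_left p (by omega)
  have h4 : p * (p * (e + x + 1) + e + x + 2 + 1) = p * p * (e + x + 1) + p * (e + x + 3) := by
    ring
  have h5 : p * p * (e + x + 1) ≤ p * p * (e + s + x + 1) := Nat.mul_le_mul_left _ (by omega)
  have h6 : p * (e + x + 3) ≤ 3 * (p * (e + s + x + 1)) := by
    calc p * (e + x + 3) ≤ p * (3 * (e + s + x + 1)) := Nat.mul_le_mul_left _ (by omega)
      _ = 3 * (p * (e + s + x + 1)) := by ring
  have h7 : p * (e + x + 1) ≤ p * (e + s + x + 1) := Nat.mul_le_mul_left _ (by omega)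
  have h8 : (p * p + 5 * p + 3) * (e + s + x + 1) = p * p * (e + s + x + 1) +
      5 * (p * (e + s + x + 1)) + 3 * (e + s + x + 1) := by ring
  rw [h8]
  omega

/-- **The coefficients of the reference charts**: the base levels have the size `e''`, the last
level has the size `e'`; near coefficients of all the levels. -/
theorem rf_cof {F : Fam m J} {D : GDat F} {c : ℕ → Fin m} {n w₀ z M j₀ : ℕ}
    {g₀ : ℕ → ℕ → ℕ} {G' : ℕ → PtT F → ℕ → MvPolynomial (Option (Fin m)) ℝ}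
    {H' : ℕ → LnT F → ℕ → MvPolynomial (Option (Fin m)) ℝ} {S : ℝ} {W : Type}
    {cp : PtT F → W} {cs : LnT F → W} {Rf : ℕ → W → ℕ → PN} {B : F.Ω → Prop} {e' e'' : ℕ}
    {g' : ℕ → ℕ} {s x j l k : ℕ} (hn : 1 ≤ n) (hc : Inj c n) (hwJ : w₀ + j₀ * z ≤ J)
    (hR : RefC D c n w₀ z M j₀ g₀ H' S cp cs Rf B) (hS : S ≤ 2 ^ s) (hj : j ≤ j₀)
    (hch : ChOK F c n (fun _ => 1) (w₀ + j * z) (w₀ + j * z) e' g' B (G' j) (H' j))
    (hch' : ChOK F c (n - 1) (fun _ => 1) (w₀ + j * z) (w₀ + j * z) e'' g' B (G' j) (H' j))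
    (hx : ∀ i < n, ∀ k < i, nlp g' k i ≤ x)
    (hg₀ : ∀ i < n, ∀ k < i, g₀ j k ≤ g₀ j i + x) (hl : l < n) (hk : k < l) {ω : F.Ω}
    (hω : B ω) :
    |cfo (Rf j (cs (slam F (w₀ + j₀ * z) ω))) (l + 1) (k + 1)| ≤ 2 ^ (e' + rfm n e'' s x) := by
  have hwj : w₀ + j * z ≤ J := (Nat.add_le_add_left (Nat.mul_le_mul_right z hj) w₀).trans hwJ
  obtain ⟨σ, hσ⟩ := hR.ref j (cs (slam F (w₀ + j₀ * z) ω))
  obtain ⟨Ψ, hΨ⟩ : ∃ Ψ, Ψ = Rf j (cs (slam F (w₀ + j₀ * z) ω)) := ⟨_, rfl⟩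
  obtain ⟨Φ, hΦ⟩ : ∃ Φ, Φ = Gx c n (G' j) (ptr F J ω) := ⟨_, rfl⟩
  obtain ⟨Θ, hΘ⟩ : ∃ Θ, Θ = Hx c n (w₀ + j * z) (H' j) (slam F (w₀ + j * z) ω) := ⟨_, rfl⟩
  have tΨ : Tr 1 Ψ := by
    rw [hΨ, hσ]
    exact tr_hx hch _ _
  have tΦ : Tr 1 Φ := by rw [hΦ]; exact tr_gx hch _
  have tΘ : Tr 1 Θ := by rw [hΘ]; exact tr_hx hch _ _
  have hc' : Inj c (n - 1) := fun a ha b hb h => hc a (by omega) b (by omega) h
  -- the lower levels of the chart at the point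
  have lowΦ : ∀ i ≤ n - 1, ∀ k, 1 ≤ k → k < i → |cfo Φ i k| ≤ 2 ^ (e'' + x) := by
    intro i hi k k1 k2
    obtain ⟨i, rfl⟩ : ∃ i', i = i' + 1 := ⟨i - 1, by omega⟩
    obtain ⟨k, rfl⟩ : ∃ k', k = k' + 1 := ⟨k - 1, by omega⟩
    have h1 := cf_gx hc' hch' hω (l := i) (k := k) (by omega) (by omega)
    have e1 : Gx c (n - 1) (G' j) (ptr F J ω) (i + 1) = Φ (i + 1) := by
      rw [hΦ]
      have h2 : Gx c (n - 1) (G' j) (ptr F J ω) (i + 1) = tr c i (G' j (ptr F J ω) i) :=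
        sy_succ (by omega)
      have h3 : Gx c n (G' j) (ptr F J ω) (i + 1) = tr c i (G' j (ptr F J ω) i) :=
        sy_succ (by omega)
      rw [h2, h3]
    have e2 : cfo (Gx c (n - 1) (G' j) (ptr F J ω)) (i + 1) (k + 1) = cfo Φ (i + 1) (k + 1) := by
      unfold cfo
      rw [e1]
    rw [← e2]
    refine h1.trans (pow_le_pow_right₀ (by norm_num) ?_)
    have := hx i (by omega) k (by omega)
    omega
  have hgl : ∀ i < n, ∀ k < i, g' k ≤ g' i + x := by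
    intro i hi k hk
    have h1 := hx i hi k hk
    unfold nlp at h1
    have h2 : g' k ≤ (Finset.Icc k i).sup g' :=
      Finset.le_sup (f := g') (Finset.mem_Icc.2 ⟨le_rfl, hk.le⟩)
    omega
  -- the chart at the point and the chart of the line
  have near1 : ∀ i ≤ n, ∀ k, 1 ≤ k → k < i →
      |cfo Φ i k - cfo Θ i k| ≤ 2 ^ (pwn n (e'' + x) + x + 1) := by
    intro i hi k k1 k2
    have hnb : NbP n (Et (F.t ω)) (gl g') (2 ^ 0) Φ Θ := by
      rw [pow_zero, hΦ, hΘ]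
      exact nb_gh hwj hc hch hω
    have h1 := nb_cf (P := Et (F.t ω)) (q := e'' + x) (s := 0) (x := x) (l := i)
      (t₀ := F.t ω) hn tΦ tΘ rfl hnb (by omega) hi
      (fun i' hi' k' k1' k2' => lowΦ i' (by omega) k' k1' k2')
      (fun k' k1' k2' => by
        have h2 := hgl (i - 1) (by omega) (k' - 1) (by omega)
        exact h2) k k1 k2
    rwa [Nat.add_zero] at h1
  have lowΘ : ∀ i ≤ n - 1, ∀ k, 1 ≤ k → k < i →
      |cfo Θ i k| ≤ 2 ^ (pwn n (e'' + x) + e'' + x + 2) := by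
    intro i hi k k1 k2
    have h1 := near1 i (by omega) k k1 k2
    have h2 := lowΦ i hi k k1 k2
    have e1 : cfo Θ i k = cfo Φ i k - (cfo Φ i k - cfo Θ i k) := by ring
    rw [e1]
    refine (abs_sub _ _).trans ((add_le_add h2 h1).trans ?_)
    have h3 : (2 : ℝ) ^ (e'' + x) ≤ 2 ^ (pwn n (e'' + x) + e'' + x + 1) :=
      pow_le_pow_right₀ (by norm_num) (by omega)
    have h4 : (2 : ℝ) ^ (pwn n (e'' + x) + x + 1) ≤ 2 ^ (pwn n (e'' + x) + e'' + x + 1) :=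
      pow_le_pow_right₀ (by norm_num) (by omega)
    rw [pow_succ _ (pwn n (e'' + x) + e'' + x + 1)]
    linarith
  -- the chart of the line and the reference chart
  have near2 : |cfo Θ (l + 1) (k + 1) - cfo Ψ (l + 1) (k + 1)| ≤
      2 ^ (pwn n (pwn n (e'' + x) + e'' + x + 2) + s + x + 1) := by
    have hnb : NbP n (Wn (tw F (w₀ + j * z) ω) (w₀ + j * z)) (fun l => g₀ j (l - 1)) (2 ^ s)
        Θ Ψ := by
      rw [hΘ, hΨ]
      exact (hR.raw j hj ω hω).mono le_rfl (fun _ h => h) hS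
    exact nb_cf (q := pwn n (e'' + x) + e'' + x + 2) (s := s) (x := x) (l := l + 1)
      (t₀ := F.t ω) hn tΘ tΨ (tw_t hwj ω) hnb (by omega) (by omega)
      (fun i' hi' k' k1' k2' => lowΘ i' (by omega) k' k1' k2')
      (fun k' k1' k2' => by
        have h2 := hg₀ l hl (k' - 1) (by omega)
        exact h2) (k + 1) (by omega) (by omega)
  have near1' := near1 (l + 1) (by omega) (k + 1) (by omega) (by omega)
  have top : |cfo Φ (l + 1) (k + 1)| ≤ 2 ^ (e' + x) := by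
    rw [hΦ]
    refine (cf_gx hc hch hω hl hk).trans (pow_le_pow_right₀ (by norm_num) ?_)
    have := hx l hl k hk
    omega
  rw [← hΨ]
  have e1 : cfo Ψ (l + 1) (k + 1) = cfo Φ (l + 1) (k + 1) -
      ((cfo Φ (l + 1) (k + 1) - cfo Θ (l + 1) (k + 1)) +
        (cfo Θ (l + 1) (k + 1) - cfo Ψ (l + 1) (k + 1))) := by ring
  rw [e1]
  refine (abs_sub _ _).trans ((add_le_add top ((abs_add_le _ _).trans
    (add_le_add near1' near2))).trans ?_)
  unfold rfm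
  obtain ⟨a, ha⟩ : ∃ a, a = pwn n (e'' + x) := ⟨_, rfl⟩
  rw [← ha]
  obtain ⟨b, hb⟩ : ∃ b, b = pwn n (a + e'' + x + 2) := ⟨_, rfl⟩
  rw [← hb]
  have h3 : (2 : ℝ) ^ (e' + x) ≤ 2 ^ (e' + (b + a + s + x + 1)) :=
    pow_le_pow_right₀ (by norm_num) (by omega)
  have h4 : (2 : ℝ) ^ (a + x + 1) ≤ 2 ^ (e' + (b + a + s + x + 1)) :=
    pow_le_pow_right₀ (by norm_num) (by omega)
  have h5 : (2 : ℝ) ^ (b + s + x + 1) ≤ 2 ^ (e' + (b + a + s + x + 1)) :=
    pow_le_pow_right₀ (by norm_num) (by omega)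
  have h6 : (2 : ℝ) ^ (e' + (b + a + s + x + 3)) = 4 * 2 ^ (e' + (b + a + s + x + 1)) := by
    rw [show e' + (b + a + s + x + 3) = (e' + (b + a + s + x + 1)) + 2 by omega, pow_add]
    norm_num
    ring
  have h7 : (0 : ℝ) < 2 ^ (e' + (b + a + s + x + 1)) := by positivity
  rw [h6]
  linarith

end Pool.OWN72
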