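import Pool.Agent.H21.HRC.Own

/-!
# The entropy of the code and of the heights
-/

set_option autoImplicit false

namespace Pool.OWN72

open Finset MvPolynomial
open Pool.Agent.H49.Ent Pool.Agent.H32.Dense Pool.STK Pool.KS3 Pool.KA Pool.KSAT Pool.PB Pool.GEN
open Pool.K2S Pool.S6C Pool.STAT Pool.STAT.CLO Pool.STAT.Glu Pool.STAT.OKI

variable {m J : ℕ}

/-- **The code and the heights** from the digits of the own velocities. -/
theorem hrc_ent {F : Fam m J} {c : ℕ → Fin m} {n K w₀ w₁ z j P₀ : ℕ} {e : ℕ → ℕ}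
    {d : ℕ → ℕ → ℕ} {W : Type} {Rf : ℕ → W → ℕ → PN} {cp : PtT F → W} {cs : LnT F → W}
    {q : F.Ω → ℝ} {A : F.Ω → Prop} (hq : IsLaw q) (hA : ∀ ω, 0 < q ω → A ω)
    (hcls : ∀ ω, A ω → cp (ptr F J ω) = cs (slam F w₁ ω))
    (hRf : ∀ j' ≤ j, ∀ v, Tr 1 (Rf j' v)) (hwJ : w₀ + j * z ≤ J)
    (hd : ∀ j' ≤ j, ∀ l < n, d j' l + e l ≤ J)
    (hlip : ∀ j' ≤ j, ∀ ω, A ω → ∀ l < n, ∀ k, 1 ≤ k → k ≤ l →
      |cfo (Rf j' (cs (slam F w₁ ω))) (l + 1) k| ≤ 2 ^ e l)
    (hd0 : ∀ j' ≤ j, d j' 0 - (w₀ + j' * z) ≤ P₀) {θ : ℝ} (hθ : 0 ≤ θ)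
    (hv : ∀ j' ≤ j, ∀ l, 1 ≤ l → l < n → CH q (fun ω => ⌊(2 : ℝ) ^ (d j' l - (w₀ + j' * z)) *
      vlo F c (Rf j' (cs (slam F w₁ ω))) (l + 1) ω⌋)
      (fun ω => (F.D P₀ ω, (F.X J ω, F.W ω))) ≤ θ) :
    CH q (fun ω => (cs (slam F w₁ ω), hts F c n K w₀ z j d Rf (fun ω => cs (slam F w₁ ω)) ω))
      (fun ω => (F.D P₀ ω, (F.X J ω, F.W ω))) ≤
      (j + 1 : ℕ) * ((n : ℝ) * (θ + 2)) +
        (j + 1 : ℕ) * ((K + 1 : ℕ) * (n * Real.log (2 * (((n + 1) * 2 ^ 0 + 2) + 1) + 1))) := by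
  obtain ⟨code, hcode⟩ : ∃ code : F.Ω → W, code = fun ω => cs (slam F w₁ ω) := ⟨_, rfl⟩
  have hce : ∀ ω, cs (slam F w₁ ω) = code ω := fun ω => by rw [hcode]
  have hcp : ∀ ω, 0 < q ω → code ω = cp (ptr F J ω) := fun ω hω => by
    rw [hcode]
    exact (hcls ω (hA ω hω)).symm
  simp only [hce] at hlip hv ⊢
  obtain ⟨Y, hY⟩ : ∃ Y : F.Ω → (Fin m → ℤ) × ((Fin m → ℤ) × (ℕ × F.ζ)),
    Y = fun ω => (F.D P₀ ω, (F.X J ω, F.W ω)) := ⟨_, rfl⟩
  have hcY : ∀ ω ω', 0 < q ω → 0 < q ω' → Y ω = Y ω' → code ω = code ω' := by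
    intro ω ω' h1 h2 h3
    rw [hY] at h3
    have h4 : ptr F J ω = ptr F J ω' := (Prod.ext_iff.1 h3).2
    rw [hcp ω h1, hcp ω' h2, h4]
  rw [← hY] at hv ⊢
  have hc1 : CH q (fun ω => (code ω, hts F c n K w₀ z j d Rf code ω)) Y ≤
      CH q (hts F c n K w₀ z j d Rf code) Y := by
    refine CH_mono_left hq.nonneg fun ω ω' h1 h2 h3 => ?_
    obtain ⟨h4, h5⟩ := Prod.ext_iff.1 h3
    exact Prod.ext (hcY ω ω' h1 h2 h5) h4
  have hc2 := CH_le_add hq.nonneg (hts F c n K w₀ z j d Rf code)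
    (vds F c n w₀ z j d Rf code) Y
  have hc3 : CH q (hts F c n K w₀ z j d Rf code) (fun ω => (vds F c n w₀ z j d Rf code ω, Y ω)) ≤
      CH q (hts F c n K w₀ z j d Rf code) (fun ω => (code ω, (fun l : Fin n => F.X J ω (c l)),
        F.T ω, vds F c n w₀ z j d Rf code ω)) := by
    refine CH_mono_cond hq.nonneg fun ω ω' h1 h2 h3 => ?_
    obtain ⟨h4, h5⟩ := Prod.ext_iff.1 h3
    have h6 := hcY ω ω' h1 h2 h5
    simp only at h4 h5
    rw [hY] at h5
    obtain ⟨-, h7⟩ := Prod.ext_iff.1 h5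
    obtain ⟨h8, h9⟩ := Prod.ext_iff.1 h7
    simp only at h8 h9
    refine Prod.ext h6 (Prod.ext ?_ (Prod.ext ?_ h4))
    · funext l
      exact congrFun h8 (c l)
    · exact (Prod.ext_iff.1 h9).1
  have hc4 := hts_fewE (K := K) (c := c) (x := 0) hq hRf hwJ (fun j' h1 l h2 => by
    rw [Nat.add_zero]
    exact hd j' h1 l h2) (code := code) (fun j' h1 ω h2 => hlip j' h1 ω (hA ω h2))
  have hc5 : CH q (vds F c n w₀ z j d Rf code) Y ≤ (j + 1 : ℕ) * ((n : ℝ) * (θ + 2)) := by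
    refine Pool.K2S.CH_pi_le hq.nonneg Y (j + 1) (fun j' ω => vds F c n w₀ z j d Rf code ω j')
      fun j' => ?_
    refine Pool.K2S.CH_pi_le hq.nonneg Y n (fun l ω => vds F c n w₀ z j d Rf code ω j' l)
      fun l => ?_
    have hj' : (j' : ℕ) ≤ j := by omega
    have hl : (l : ℕ) < n := l.2
    rcases Nat.eq_zero_or_pos (l : ℕ) with h0 | h0
    · have h1 : CH q (fun ω => ⌊(2 : ℝ) ^ (d j' l - (w₀ + j' * z)) *
          vlo F c (Rf j' (code ω)) (l + 1) ω⌋) Y ≤ Real.log (2 * (1 + 1) + 1) := by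
        refine near_few hq (fun ω => vlo F c (Rf j' (code ω)) (l + 1) ω) Y
          fun ω ω' h1 h2 h3 => ?_
        have h4 := hcY ω ω' h1 h2 h3
        rw [← h4]
        have h5 : F.D P₀ ω = F.D P₀ ω' := by
          rw [hY] at h3
          exact (Prod.ext_iff.1 h3).1
        have h6 : |F.d ω (c 0) - F.d ω' (c 0)| ≤ 1 / 2 ^ P₀ :=
          near_of_fl (congrFun h5 (c 0))
        have e1 : vlo F c (Rf j' (code ω)) (l + 1) ω - vlo F c (Rf j' (code ω)) (l + 1) ω' =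
            F.d ω (c 0) - F.d ω' (c 0) := by
          rw [h0]
          unfold vlo
          rw [Finset.sum_range_succ, Finset.sum_range_succ, Finset.sum_range_zero,
            Finset.sum_range_zero]
          have e2 : ∀ ω, vxs F c ω 0 = 1 := fun ω => if_pos rfl
          rw [e2, e2]
          simp only [Nat.zero_add, Nat.sub_self]
          ring
        rw [e1]
        refine h6.trans (one_div_le_one_div_of_le (by positivity)
          (pow_le_pow_right₀ (by norm_num) ?_))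
        rw [h0]
        exact hd0 j' hj'
      have h2 : Real.log (2 * (1 + 1) + 1) ≤ 2 := by
        rw [Real.log_le_iff_le_exp (by norm_num)]
        have h3 := Real.add_one_le_exp (1 : ℝ)
        have h4 : (5 : ℝ) ≤ Real.exp 2 := by
          have e1 : Real.exp 2 = Real.exp 1 * Real.exp 1 := by
            rw [← Real.exp_add]
            norm_num
          have := Real.exp_one_gt_d9
          rw [e1]
          nlinarith
        linarith
      exact (h1.trans h2).trans (by linarith)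
    · exact (hv j' hj' l h0 hl).trans (by linarith)
  refine hc1.trans (hc2.trans ?_)
  linarith [hc3.trans hc4]

end Pool.OWN72
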