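import Pool.Agent.H21.HRC.Ent

/-!
# The code and the heights of a column are visible

`hrc`: the code of the reference charts of the columns up to `j₀` and the heights of the own path
over them have few bits given the exact point and the first `P₀ J` digits of the direction.
-/

set_option autoImplicit false

namespace Pool.OWN72

open Finset MvPolynomial
open Pool.Agent.H49.Ent Pool.Agent.H32.Dense Pool.STK Pool.KA Pool.KSAT Pool.K2S Pool.PB Pool.GEN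
open Pool.S6C Pool.KS3 Pool.STAT Pool.STAT.CLO Pool.STAT.Glu Pool.STAT.OKI

variable {m J : ℕ}

theorem exp_le_two {y : ℝ} (hy : 0 ≤ y) : Real.exp y ≤ 2 ^ ⌈2 * y⌉₊ := by
  have h1 : 2 * y ≤ ⌈2 * y⌉₊ := Nat.le_ceil _
  have h2 := Real.log_two_gt_d9
  have h3 : y ≤ ⌈2 * y⌉₊ * Real.log 2 := by
    have h4 : (0 : ℝ) ≤ ⌈2 * y⌉₊ := Nat.cast_nonneg _
    nlinarith
  calc Real.exp y ≤ Real.exp (⌈2 * y⌉₊ * Real.log 2) := Real.exp_le_exp.2 h3
    _ = 2 ^ ⌈2 * y⌉₊ := by rw [Real.exp_nat_mul, Real.exp_log (by norm_num)]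

/-- **The code and the heights are visible.** -/
theorem hrc (n K : ℕ) (hn : 1 ≤ n) : ∃ C : ℝ, 1 ≤ C ∧ ∀ {m : ℕ} {S : PCl m} {C₀ : ℝ} {c : ℕ → Fin m}
    {ϖ ζ ε κ x y γ γ₁ P P₀ E : ℝ} {b : ℕ → ℕ → ℝ} {j₀ : ℕ}, TmC S C₀ → Inj c n →
    Pool.MIC6.ActF S (c 0) → 0 ≤ ϖ → 0 < ζ → 0 < ε → 0 < κ → 0 < γ → 0 < γ₁ → 0 ≤ P → 0 < x →
    0 < y → 0 ≤ E → C * (ε + κ) * ζ ≤ x → C * (ε + κ) * ζ ≤ γ → C * y ≤ γ → P + 8 * x ≤ P₀ →
    P₀ ≤ 1 → ϖ + (j₀ + 1) * ζ + γ₁ ≤ 1 →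
    (∀ j ≤ j₀, ∀ l, 1 ≤ l → l < n → ϖ + j * ζ + 2 * x ≤ b j l) →
    (∀ j ≤ j₀, |b j 0 - (ϖ + j * ζ)| ≤ x) →
    (∀ j ≤ j₀, ∀ k l, k < l → l < n → b j k ≤ b j l) →
    (∀ j ≤ j₀, ∀ l < n, b j l + P + E + γ ≤ 1) →
    (∀ j ≤ j₀, ∀ l, 1 ≤ l → l < n →
      RepX S (c 0) (img c l) (c l) (ϖ + j * ζ) (ϖ + j₀ * ζ + γ₁) (b j l) P x) →
    ∀ h : ℝ, 0 < h → Bas S fun J F A =>
    ∀ (D : GDat F) (K' s₁ : ℕ) (sh : ℕ → ℕ) (a₀ M : ℕ) (e : ℕ → ℕ → ℕ)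
      (g : ℕ → ℕ → ℕ → ℕ) (lo hi : ℕ → ℕ → ℝ) (e₀ e' e'' : ℕ → ℕ) (g₀ g' : ℕ → ℕ → ℕ)
      (G₀ G' : ℕ → PtT F → ℕ → MvPolynomial (Option (Fin m)) ℝ)
      (H₀ H' : ℕ → LnT F → ℕ → MvPolynomial (Option (Fin m)) ℝ) (W : Type) (cp : PtT F → W)
      (cs : LnT F → W) (Rf : ℕ → W → ℕ → PN), j₀ ≤ M →
      D.Ok c n K K' s₁ sh a₀ (up ϖ J) (up ζ J) M e g A →
      BalG D.G D.H c n K M (up ϖ J) (up ζ J) lo hi e₀ g₀ G₀ H₀ A →
      (∀ j ≤ j₀, ChOK F c n (fun _ => 1) (up ϖ J + j * up ζ J) (up ϖ J + j * up ζ J) (e' j)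
        (g' j) A (G' j) (H' j)) →
      (∀ j ≤ j₀, ChOK F c (n - 1) (fun _ => 1) (up ϖ J + j * up ζ J) (up ϖ J + j * up ζ J) (e'' j)
        (g' j) A (G' j) (H' j)) →
      (∀ j ≤ j₀, ∀ l < n, |(g₀ j l : ℝ) - b j l * J| ≤ κ * (ζ * J)) →
      (∀ j ≤ j₀, ∀ l < n, |(g' j l : ℝ) - b j l * J| ≤ κ * (ζ * J)) →
      (∀ j ≤ j₀, (e' j : ℝ) ≤ (E + y) * J) → (∀ j ≤ j₀, (e'' j : ℝ) ≤ y * J) →
      RefC D c n (up ϖ J) (up ζ J) M j₀ g₀ H' (Real.exp (ε * up ζ J)) cp cs Rf A →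
      CH (Pool.Agent.H49.Ent.cond F.p A True) (fun ω => (cs (slam F (up ϖ J + j₀ * up ζ J) ω),
          hts F c n K (up ϖ J) (up ζ J) j₀ (fun j l => ⌊(b j l + P) * J⌋₊) Rf
            (fun ω => cs (slam F (up ϖ J + j₀ * up ζ J) ω)) ω))
        (fun ω => (F.D ⌊P₀ * J⌋₊ ω, (F.X J ω, F.W ω))) ≤ h * J := by
  obtain ⟨R, hR⟩ : ∃ R : ℕ, R = pwn n 1 * pwn n 1 + 5 * pwn n 1 + 3 := ⟨_, rfl⟩
  have hR3 : (3 : ℝ) ≤ R := by
    have : 3 ≤ R := by rw [hR]; omega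
    exact_mod_cast this
  refine ⟨8 * R, by linarith, ?_⟩
  intro m S C₀ c ϖ ζ ε κ x y γ γ₁ P P₀ E b j₀ htm hc hact hϖ hζ hε hκ hγ hγ₁ hP hx hy hE hCx hCγ
    hCy hPP hP₀ hwin hlow h0b hmono hsz hrep h hh
  have hn0 : (0 : ℝ) < n := by exact_mod_cast hn
  have hj0 : (0 : ℝ) ≤ j₀ := Nat.cast_nonneg _
  obtain ⟨h', hh'⟩ : ∃ h', h' = h / (4 * (j₀ + 1) * n) := ⟨_, rfl⟩
  have hh'0 : 0 < h' := by rw [hh']; positivity
  have hh'1 : (j₀ + 1) * (n * h') = h / 4 := by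
    rw [hh']
    field_simp
  obtain ⟨Cst, hCst⟩ : ∃ Cst : ℝ, Cst = (j₀ + 1 : ℕ) * ((K + 1 : ℕ) *
    (n * Real.log (2 * (((n + 1) * 2 ^ 0 + 2) + 1) + 1))) := ⟨_, rfl⟩
  obtain ⟨J₁, hJ₁⟩ := exists_nat_ge ((2 + j₀ : ℝ) / γ₁)
  obtain ⟨J₂, hJ₂⟩ := exists_nat_ge ((4 * ε + 8 + 2 * j₀ : ℝ) / x)
  obtain ⟨J₃, hJ₃⟩ := exists_nat_ge ((4 * (R * (2 * ε + 2) + 1) : ℝ) / γ)
  obtain ⟨J₄, hJ₄⟩ := exists_nat_ge ((2 * ((j₀ + 1) * (n * 2) + Cst) : ℝ) / h)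
  have hvis : Bas S fun J F A => ∀ j < j₀ + 1, ∀ l < n, 1 ≤ l →
      ∀ (e : ℕ) (a : PtT F → Fin m → ℝ) (ct : PtT F → ℝ),
      ClA F A (img c l) (c l) ⌊(ϖ + j₀ * ζ + γ₁) * J⌋₊ e ⌊(b j l - (ϖ + j * ζ) - x) * J⌋₊ a ct →
      ∀ Q ≤ ⌊(b j l - (ϖ + j * ζ) + P) * J⌋₊,
      CH (Pool.Agent.H49.Ent.cond F.p A True) (fun ω => ⌊(2 : ℝ) ^ Q * (F.d ω (c l) -
        ct (ptr F J ω) - ∑ k ∈ img c l, a (ptr F J ω) k * F.d ω k)⌋)
        (fun ω => (F.D ⌊P₀ * J⌋₊ ω, (F.X J ω, F.W ω))) ≤ h' * J := by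
    refine Bas.all (j₀ + 1) fun j hj => Bas.all n fun l hl => ?_
    rcases Nat.eq_zero_or_pos l with h0 | h0
    · exact ⟨1, one_pos, 0, fun _ _ _ _ _ h1 => absurd h1 (by omega)⟩
    · have h1 := hlow j (by omega) l h0 hl
      refine Bas.mono 0 (vis_x htm hact hP hx hPP (by linarith)
        (hrep j (by omega) l h0 hl) h' hh'0) ?_
      intro J _ F A h2 _
      exact h2
  have hpos : Bas S (fun _ F A => 0 < Pe F.p A) :=
    ⟨1, one_pos, 0, fun J _ F A hA => (htm 1 J F A one_pos hA).1⟩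
  refine Bas.mono (max (max J₁ J₂) (max J₃ J₄)) (hvis.and hpos) ?_
  rintro J hJ F A ⟨hv, hA⟩ D K' s₁ sh a₀ M e g lo hi e₀ e' e'' g₀ g' G₀ G' H₀ H' W cp cs Rf hjM hD
    hb hch hch' hg0 hg' he' he'' hRf
  have j1 : (J₁ : ℝ) ≤ J := by
    exact_mod_cast ((le_max_left _ _).trans (le_max_left _ _)).trans hJ
  have j2 : (J₂ : ℝ) ≤ J := by
    exact_mod_cast ((le_max_right _ _).trans (le_max_left _ _)).trans hJ
  have j3 : (J₃ : ℝ) ≤ J := by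
    exact_mod_cast ((le_max_left _ _).trans (le_max_right _ _)).trans hJ
  have j4 : (J₄ : ℝ) ≤ J := by
    exact_mod_cast ((le_max_right _ _).trans (le_max_right _ _)).trans hJ
  have q1 := hJ₁.trans j1
  have q2 := hJ₂.trans j2
  have q3 := hJ₃.trans j3
  have q4 := hJ₄.trans j4
  rw [div_le_iff₀ hγ₁] at q1
  rw [div_le_iff₀ hx] at q2
  rw [div_le_iff₀ hγ] at q3
  rw [div_le_iff₀ hh] at q4
  have hJ0 : (0 : ℝ) ≤ J := Nat.cast_nonneg J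
  obtain ⟨z, hz⟩ : ∃ z, z = up ζ J := ⟨_, rfl⟩
  obtain ⟨w₀, hw₀⟩ : ∃ w₀, w₀ = up ϖ J := ⟨_, rfl⟩
  have hzge : ζ * J ≤ z := by rw [hz]; exact up_ge _ _
  have hzle : (z : ℝ) ≤ ζ * J + 1 := by rw [hz]; exact up_le hζ.le _
  have hwge : ϖ * J ≤ w₀ := by rw [hw₀]; exact up_ge _ _
  have hwle : (w₀ : ℝ) ≤ ϖ * J + 1 := by rw [hw₀]; exact up_le hϖ _
  rw [← hz, ← hw₀] at hD hb hRf ⊢
  simp only [← hz, ← hw₀] at hch hch'
  have hζJ : 0 ≤ ζ * J := by positivity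
  have hwj : ∀ j : ℕ, j ≤ j₀ → ((w₀ + j * z : ℕ) : ℝ) ≤ (ϖ + j * ζ) * J + 1 + j₀ := by
    intro j hj
    push_cast
    have e1 : (j : ℝ) * z ≤ j * (ζ * J + 1) := mul_le_mul_of_nonneg_left hzle (Nat.cast_nonneg _)
    have e2 : (j : ℝ) ≤ j₀ := by exact_mod_cast hj
    linarith
  have hwj' : ∀ j : ℕ, (ϖ + j * ζ) * J ≤ ((w₀ + j * z : ℕ) : ℝ) := by
    intro j
    push_cast
    have e1 : (j : ℝ) * (ζ * J) ≤ j * z := mul_le_mul_of_nonneg_left hzge (Nat.cast_nonneg _)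
    linarith
  -- the window
  have hwW : w₀ + j₀ * z ≤ ⌊(ϖ + j₀ * ζ + γ₁) * J⌋₊ := by
    refine Nat.le_floor ?_
    have := hwj j₀ le_rfl
    linarith
  have hWJ : ⌊(ϖ + j₀ * ζ + γ₁) * (J : ℝ)⌋₊ ≤ J := by
    refine Nat.floor_le_of_le ?_
    have : (ϖ + j₀ * ζ + γ₁) * (J : ℝ) ≤ 1 * J :=
      mul_le_mul_of_nonneg_right (by linarith) hJ0
    linarith
  have hwJ : w₀ + j₀ * z ≤ J := hwW.trans hWJ
  -- the size of the loss
  obtain ⟨s, hs⟩ : ∃ s, s = ⌈2 * (ε * z)⌉₊ := ⟨_, rfl⟩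
  have hz0 : (0 : ℝ) ≤ z := Nat.cast_nonneg z
  have hS : Real.exp (ε * z) ≤ 2 ^ s := by
    rw [hs]
    exact exp_le_two (by positivity)
  have hsle : (s : ℝ) ≤ 2 * ε * (ζ * J) + 2 * ε + 1 := by
    have e1 : (s : ℝ) ≤ 2 * (ε * z) + 1 := by
      rw [hs]
      exact (Nat.ceil_lt_add_one (by positivity)).le
    have e2 := mul_le_mul_of_nonneg_left hzle hε.le
    linarith
  have f1 : 8 * R * (ε + κ) * ζ * J ≤ x * J := mul_le_mul_of_nonneg_right hCx hJ0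
  have f2 : 8 * R * (ε + κ) * ζ * J ≤ γ * J := mul_le_mul_of_nonneg_right hCγ hJ0
  have f3 : 8 * R * y * J ≤ γ * J := mul_le_mul_of_nonneg_right hCy hJ0
  have f0 : 0 ≤ (ε + κ) * (ζ * J) := by positivity
  have f4 : 24 * ((ε + κ) * (ζ * J)) ≤ 8 * R * (ε + κ) * ζ * J := by
    have e1 : 8 * R * (ε + κ) * ζ * J = 8 * R * ((ε + κ) * (ζ * J)) := by ring
    rw [e1]
    exact mul_le_mul_of_nonneg_right (by linarith) f0
  have hεJ : 0 ≤ ε * (ζ * J) := by positivity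
  have hκJ : 0 ≤ κ * (ζ * J) := by positivity
  have f5 : (ε + κ) * (ζ * J) = ε * (ζ * J) + κ * (ζ * J) := by ring
  -- the own velocities
  have hTr : ∀ j ≤ j₀, ∀ v, Tr 1 (Rf j v) := by
    intro j hj v
    obtain ⟨σ, hσ⟩ := hRf.ref j v
    rw [hσ]
    exact tr_hx (hch j hj) _ _
  have hvel : ∀ j ≤ j₀, ∀ l, 1 ≤ l → l < n → ∀ ω, A ω →
      |vlo F c (Rf j (cs (slam F (w₀ + j₀ * z) ω))) (l + 1) ω| ≤
        1 / 2 ^ ⌊(b j l - (ϖ + j * ζ) - x) * J⌋₊ := by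
    intro j hj l h1 hl ω hω
    refine (ref_own hc hD hb hRf hjM hj hω (hTr j hj _) hl).trans ?_
    obtain ⟨N, hN⟩ : ∃ N, N = ⌊(b j l - (ϖ + j * ζ) - x) * (J : ℝ)⌋₊ := ⟨_, rfl⟩
    rw [← hN]
    have e1 : (N : ℝ) ≤ (b j l - (ϖ + j * ζ) - x) * J := by
      rw [hN]
      refine Nat.floor_le (mul_nonneg ?_ hJ0)
      have := hlow j hj l h1 hl
      linarith
    have e2 := hwj j hj
    have e3 := (abs_le.1 (hg0 j hj l hl)).1
    have e4 : s + (w₀ + j * z) + N ≤ g₀ j l := by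
      have e5 : ((s + (w₀ + j * z) + N : ℕ) : ℝ) ≤ g₀ j l := by
        have e6 : ((s + (w₀ + j * z) + N : ℕ) : ℝ) = s + ((w₀ + j * z : ℕ) : ℝ) + N := by
          push_cast
          ring
        rw [e6]
        linarith
      exact_mod_cast e5
    rw [div_le_div_iff₀ (by positivity) (by positivity), one_mul]
    calc Real.exp (ε * z) * 2 ^ (w₀ + j * z) * 2 ^ N ≤ 2 ^ s * 2 ^ (w₀ + j * z) * 2 ^ N := by
          gcongr
      _ = 2 ^ (s + (w₀ + j * z) + N) := by rw [pow_add _ (s + (w₀ + j * z)) N, pow_add _ s]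
      _ ≤ 2 ^ g₀ j l := pow_le_pow_right₀ (by norm_num) e4
  -- the slopes
  obtain ⟨xn, hxn⟩ : ∃ xn, xn = ⌊2 * (κ * (ζ * J))⌋₊ := ⟨_, rfl⟩
  have hxle : (xn : ℝ) ≤ 2 * (κ * (ζ * J)) := by
    rw [hxn]
    exact Nat.floor_le (by positivity)
  have hnum : ∀ (g₁ : ℕ → ℕ → ℕ), (∀ j ≤ j₀, ∀ l < n, |(g₁ j l : ℝ) - b j l * J| ≤ κ * (ζ * J)) →
      ∀ j ≤ j₀, ∀ i < n, ∀ k ≤ i, g₁ j k ≤ g₁ j i + xn := by
    intro g₁ hg₁ j hj i hi k hk
    rcases Nat.lt_or_ge k i with h1 | h1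
    · have h2 := abs_le.1 (hg₁ j hj k (by omega))
      have h3 := abs_le.1 (hg₁ j hj i hi)
      have h4 : b j k * J ≤ b j i * J := mul_le_mul_of_nonneg_right (hmono j hj k i h1 hi) hJ0
      have h5 : ((g₁ j k : ℤ) : ℝ) - (g₁ j i : ℤ) ≤ 2 * (κ * (ζ * J)) := by
        push_cast
        linarith [h2.2, h3.1]
      have h6 : (g₁ j k : ℤ) - g₁ j i ≤ xn := by
        have h7 : (g₁ j k : ℤ) - g₁ j i ≤ ⌊2 * (κ * (ζ * (J : ℝ)))⌋ := by
          refine Int.le_floor.2 ?_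
          push_cast at h5 ⊢
          exact h5
        refine h7.trans (le_of_eq ?_)
        rw [hxn]
        exact (Int.natCast_floor_eq_floor (by positivity)).symm
      omega
    · have : k = i := by omega
      rw [this]
      omega
  obtain ⟨eT, heT⟩ : ∃ eT, eT = ⌊(E + γ) * (J : ℝ)⌋₊ := ⟨_, rfl⟩
  have hcf : ∀ j ≤ j₀, ∀ ω, A ω → ∀ l < n, ∀ k, 1 ≤ k → k ≤ l →
      |cfo (Rf j (cs (slam F (w₀ + j₀ * z) ω))) (l + 1) k| ≤ 2 ^ eT := by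
    intro j hj ω hω l hl k k1 k2
    obtain ⟨k, rfl⟩ : ∃ k', k = k' + 1 := ⟨k - 1, by omega⟩
    have h1 := rf_cof (s := s) (x := xn) hn hc hwJ hRf hS hj (hch j hj) (hch' j hj)
      (fun i hi k hk => by
        unfold nlp
        have h2 : (Finset.Icc k i).sup (g' j) ≤ g' j i + xn := by
          refine Finset.sup_le fun t ht => ?_
          have := Finset.mem_Icc.1 ht
          exact hnum g' hg' j hj i hi t this.2
        omega) (fun i hi k hk => hnum g₀ hg0 j hj i hi k hk.le) hl (by omega : k < l) hω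
    refine h1.trans (pow_le_pow_right₀ (by norm_num) ?_)
    rw [heT]
    refine Nat.le_floor ?_
    push_cast
    have h2 : ((rfm n (e'' j) s xn : ℕ) : ℝ) ≤ R * (e'' j + s + xn + 1) := by
      have := rfm_le n (e'' j) s xn
      rw [← hR] at this
      exact_mod_cast this
    have h3 := he' j hj
    have h4 := he'' j hj
    have h5 : R * ((e'' j : ℝ) + s + xn + 1) ≤ R * (y * J + (2 * ε * (ζ * J) + 2 * ε + 1) +
        2 * (κ * (ζ * J)) + 1) := mul_le_mul_of_nonneg_left (by linarith) (by linarith)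
    have h6 : R * (y * J + (2 * ε * (ζ * J) + 2 * ε + 1) + 2 * (κ * (ζ * J)) + 1) =
        (8 * R * y * J) / 8 + (8 * R * (ε + κ) * ζ * J) / 4 + R * (2 * ε + 2) := by ring
    have h7 : y * J ≤ (8 * R * y * J) / 8 := by
      have : 0 ≤ y * J := by positivity
      have e1 : (8 * R * y * J) / 8 = R * (y * J) := by ring
      rw [e1]
      nlinarith
    have h8 : (E + y) * J = E * J + y * J := by ring
    have h9 : (E + γ) * J = E * J + γ * J := by ring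
    have h10 : 0 ≤ γ * J := by positivity
    rw [h9]
    rw [h8] at h3
    rw [h6] at h5
    linarith
  -- the assembly
  have hq : IsLaw (Pool.Agent.H49.Ent.cond F.p A True) := isLaw_cond F.isLaw hA
  have key := hrc_ent (c := c) (n := n) (K := K) (w₀ := w₀) (w₁ := w₀ + j₀ * z) (z := z) (j := j₀)
    (P₀ := ⌊P₀ * (J : ℝ)⌋₊) (e := fun l => if l = 0 then 0 else eT)
    (d := fun j l => ⌊(b j l + P) * (J : ℝ)⌋₊) (Rf := Rf) (cp := cp) (cs := cs)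
    (A := A) hq (fun ω hω => cond_supp hω) hRf.cls hTr hwJ
    (fun j hj l hl => by
      show ⌊(b j l + P) * (J : ℝ)⌋₊ + (if l = 0 then 0 else eT) ≤ J
      have h1 := mul_le_mul_of_nonneg_right (hsz j hj l hl) hJ0
      have h10 : 0 ≤ γ * J := by positivity
      have h11 : 0 ≤ E * J := by positivity
      split_ifs with h0
      · rw [Nat.add_zero]
        refine Nat.floor_le_of_le ?_
        linarith
      · have h2 := hlow j hj l (by omega) hl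
        have h3 : 0 ≤ b j l + P := by
          have : 0 ≤ (j : ℝ) * ζ := by positivity
          linarith
        have h4 : (⌊(b j l + P) * (J : ℝ)⌋₊ : ℝ) ≤ (b j l + P) * J :=
          Nat.floor_le (by positivity)
        have h5 : (eT : ℝ) ≤ (E + γ) * J := by
          rw [heT]
          exact Nat.floor_le (by positivity)
        have h6 : ((⌊(b j l + P) * (J : ℝ)⌋₊ + eT : ℕ) : ℝ) ≤ J := by
          push_cast
          linarith
        exact_mod_cast h6)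
    (fun j hj ω hω l hl k k1 k2 => by
      show _ ≤ 2 ^ (if l = 0 then 0 else eT)
      rw [if_neg (by omega)]
      exact hcf j hj ω hω l hl k k1 k2)
    (fun j hj => by
      show ⌊(b j 0 + P) * (J : ℝ)⌋₊ - (w₀ + j * z) ≤ ⌊P₀ * (J : ℝ)⌋₊
      rcases Nat.lt_or_ge (w₀ + j * z) ⌊(b j 0 + P) * (J : ℝ)⌋₊ with h1 | h1
      · refine Nat.le_floor ?_
        rw [Nat.cast_sub h1.le]
        have h2 : 0 ≤ (b j 0 + P) * (J : ℝ) := by
          by_contra hcon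
          rw [Nat.floor_of_nonpos (not_le.1 hcon).le] at h1
          omega
        have h3 := Nat.floor_le h2
        have h4 := hwj' j
        have h5 := (abs_le.1 (h0b j hj)).2
        have h6 : (b j 0 + P) * (J : ℝ) ≤ (ϖ + j * ζ) * J + (P + x) * J := by
          have := mul_le_mul_of_nonneg_right (show b j 0 + P ≤ (ϖ + j * ζ) + (P + x) by linarith)
            hJ0
          linarith
        have h7 : (P + x) * (J : ℝ) ≤ P₀ * J := mul_le_mul_of_nonneg_right (by linarith) hJ0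
        linarith
      · rw [Nat.sub_eq_zero_of_le h1]
        exact Nat.zero_le _)
    (θ := h' * J) (by positivity)
    (fun j hj l h1 hl => by
      obtain ⟨e₁, he₁⟩ := ref_cla (cp := cp) (cs := cs) (R := Rf j) hc hRf.cls hwW hWJ hl
        (hvel j hj l h1 hl)
      have h2 := hv j (by omega) l hl h1 e₁ _ _ he₁ (⌊(b j l + P) * (J : ℝ)⌋₊ - (w₀ + j * z)) (by
        rcases Nat.lt_or_ge (w₀ + j * z) ⌊(b j l + P) * (J : ℝ)⌋₊ with h3 | h3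
        · refine Nat.le_floor ?_
          rw [Nat.cast_sub h3.le]
          have h2 : 0 ≤ (b j l + P) * (J : ℝ) := by
            by_contra hcon
            rw [Nat.floor_of_nonpos (not_le.1 hcon).le] at h3
            omega
          have h4 := Nat.floor_le h2
          have h5 := hwj' j
          have h6 : (b j l - (ϖ + j * ζ) + P) * (J : ℝ) = (b j l + P) * J - (ϖ + j * ζ) * J := by
            ring
          rw [h6]
          linarith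
        · rw [Nat.sub_eq_zero_of_le h3]
          exact Nat.zero_le _)
      refine le_trans (CH_mono_left hq.nonneg fun ω ω' h3 h4 h5 => ?_) h2
      have h6 := (Prod.ext_iff.1 h5).1
      simp only at h6 ⊢
      rw [vlo_cfa hc hl, vlo_cfa hc hl, hRf.cls ω (cond_supp h3), hRf.cls ω' (cond_supp h4)] at h6
      exact h6)
  refine key.trans ?_
  rw [← hCst]
  push_cast
  have h1 : ((j₀ : ℝ) + 1) * (n * (h' * J + 2)) = (j₀ + 1) * (n * h') * J + (j₀ + 1) * (n * 2) := by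
    ring
  rw [h1, hh'1]
  have h2 : 2 * (((j₀ : ℝ) + 1) * (n * 2) + Cst) ≤ h * J := by linarith
  have h3 : 0 ≤ h * J := by positivity
  linarith

end Pool.OWN72
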