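import Pool.Agent.H21.HRC.Hrc

/-!
# The code and the heights of a column are visible, the target is not sorted

`hrcT`: the same as `hrc`, the number of the last level may be smaller than the base numbers.
-/

set_option autoImplicit false

namespace Pool.OWN72

open Finset MvPolynomial
open Pool.Agent.H49.Ent Pool.Agent.H32.Dense Pool.STK Pool.KS3 Pool.KA Pool.KSAT Pool.PB Pool.GEN
open Pool.K2S Pool.S6C Pool.STAT Pool.STAT.CLO Pool.STAT.Glu Pool.STAT.OKI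

variable {m J : ℕ}

open Pool.STAT.OKI in
/-- **The digits of the heights** with steep charts: the slopes of level `l` are at most
`2 ^ e j' l`. -/
theorem hts_fewJ {F : Fam m J} {c : ℕ → Fin m} {n K w₀ z j x : ℕ} {e d : ℕ → ℕ → ℕ}
    {W : Type}
    {Rf : ℕ → W → ℕ → PN} {code : F.Ω → W} {q : F.Ω → ℝ} (hq : IsLaw q)
    (hRf : ∀ j' ≤ j, ∀ v, Tr 1 (Rf j' v)) (hwJ : w₀ + j * z ≤ J)
    (hd : ∀ j' ≤ j, ∀ l < n, d j' l + e j' l ≤ J + x)
    (hlip : ∀ j' ≤ j, ∀ ω, 0 < q ω → ∀ l < n, ∀ k, 1 ≤ k → k ≤ l →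
      |cfo (Rf j' (code ω)) (l + 1) k| ≤ 2 ^ e j' l) :
    CH q (hts F c n K w₀ z j d Rf code) (fun ω => (code ω, (fun l : Fin n => F.X J ω (c l)),
      F.T ω, vds F c n w₀ z j d Rf code ω)) ≤
      (j + 1 : ℕ) * ((K + 1 : ℕ) * (n * Real.log (2 * (((n + 1) * 2 ^ x + 2) + 1) + 1))) := by
  refine CH_pi_le hq.nonneg _ (j + 1) (fun j' ω => hts F c n K w₀ z j d Rf code ω j') fun j' => ?_
  refine CH_pi_le hq.nonneg _ (K + 1) (fun a ω => hts F c n K w₀ z j d Rf code ω j' a) fun a => ?_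
  refine CH_pi_le hq.nonneg _ n (fun l ω => hts F c n K w₀ z j d Rf code ω j' a l) fun l => ?_
  have hj' : (j' : ℕ) ≤ j := by omega
  have ha : (a : ℕ) ≤ K := by omega
  have hl : (l : ℕ) < n := l.2
  have hw : w₀ + j' * z ≤ J := (Nat.add_le_add_left (Nat.mul_le_mul_right z hj') w₀).trans hwJ
  refine Pool.OWN72.near_few hq (fun ω => ohg F c w₀ (Rf j' (code ω))
    (nod K (tw F (w₀ + j' * z) ω) (w₀ + j' * z) a) (l + 1) ω) _ ?_
  intro ω ω' hω hω' h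
  obtain ⟨h1, h'⟩ := Prod.ext_iff.mp h
  obtain ⟨h2, h''⟩ := Prod.ext_iff.mp h'
  obtain ⟨h3, h4⟩ := Prod.ext_iff.mp h''
  simp only at h1 h2 h3 h4
  have eT : F.T1 (w₀ + j' * z) ω' = F.T1 (w₀ + j' * z) ω := by
    unfold Fam.T1
    rw [h3]
  have e0 : tw F (w₀ + j' * z) ω' = tw F (w₀ + j' * z) ω := by
    unfold tw
    rw [eT]
  have et : F.t ω' = F.t ω := by
    unfold Fam.t
    rw [h3]
  have h5 := congrFun (congrFun h4 j') l
  unfold vds at h5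
  show |ohg F c w₀ (Rf j' (code ω)) (nod K (tw F (w₀ + j' * z) ω) (w₀ + j' * z) a) (l + 1) ω -
    ohg F c w₀ (Rf j' (code ω')) (nod K (tw F (w₀ + j' * z) ω') (w₀ + j' * z) a) (l + 1) ω'| ≤ _
  obtain ⟨Φ, hΦ⟩ : ∃ Φ, Φ = Rf j' (code ω) := ⟨_, rfl⟩
  have hT : Tr 1 Φ := by rw [hΦ]; exact hRf j' hj' _
  have hlp := hlip j' hj' ω hω l hl
  rw [← h1] at h5 ⊢
  rw [← hΦ] at h5 hlp ⊢
  rw [e0, ohg_aff hT _ (by omega), ohg_aff hT _ (by omega), et]
  simp only [Nat.add_sub_cancel]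
  obtain ⟨τ, hτ⟩ : ∃ τ, τ = nod K (tw F (w₀ + j' * z) ω) (w₀ + j' * z) a - F.t ω := ⟨_, rfl⟩
  have hτ1 : |τ| ≤ 2 / 2 ^ (w₀ + j' * z) := by
    rw [hτ]
    exact nod_t hw ha ω
  rw [← hτ]
  have hX : ∀ k < n, |F.x ω (c k) - F.x ω' (c k)| ≤ 1 / 2 ^ J := by
    intro k hk
    have h6 : F.X J ω (c k) = F.X J ω' (c k) := congrFun h2 ⟨k, hk⟩
    exact Pool.MIC6.floor_near h6
  have hV := Pool.MIC6.floor_near h5
  have e4 : F.x ω (c l) - (coeff 0 (Φ (l + 1)) + ∑ k ∈ range (l + 1), cfo Φ (l + 1) k *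
      xs F c ω k) + τ * vlo F c Φ (l + 1) ω - (F.x ω' (c l) - (coeff 0 (Φ (l + 1)) +
      ∑ k ∈ range (l + 1), cfo Φ (l + 1) k * xs F c ω' k) + τ * vlo F c Φ (l + 1) ω') =
      (F.x ω (c l) - F.x ω' (c l)) - ∑ k ∈ range (l + 1), cfo Φ (l + 1) k *
        (xs F c ω k - xs F c ω' k) + τ * (vlo F c Φ (l + 1) ω - vlo F c Φ (l + 1) ω') := by
    have e5 : ∑ k ∈ range (l + 1), cfo Φ (l + 1) k * (xs F c ω k - xs F c ω' k) =
        ∑ k ∈ range (l + 1), cfo Φ (l + 1) k * xs F c ω k -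
        ∑ k ∈ range (l + 1), cfo Φ (l + 1) k * xs F c ω' k := by
      rw [← Finset.sum_sub_distrib]
      exact Finset.sum_congr rfl fun k _ => by ring
    rw [e5]
    ring
  rw [e4]
  have hdJ := hd j' hj' l hl
  have p0 : (2 : ℝ) ^ e j' l * (1 / 2 ^ J) ≤ 2 ^ x / 2 ^ d j' l := by
    rw [mul_one_div, div_le_div_iff₀ (by positivity) (by positivity), ← pow_add, ← pow_add]
    exact pow_le_pow_right₀ (by norm_num) (by omega)
  have p1 : (1 : ℝ) / 2 ^ J ≤ 2 ^ x / 2 ^ d j' l := by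
    rw [div_le_div_iff₀ (by positivity) (by positivity), one_mul, ← pow_add]
    exact pow_le_pow_right₀ (by norm_num) (by omega)
  have b1 : |∑ k ∈ range (l + 1), cfo Φ (l + 1) k * (xs F c ω k - xs F c ω' k)| ≤
      n * 2 ^ e j' l * (1 / 2 ^ J) := by
    refine (Finset.abs_sum_le_sum_abs _ _).trans ?_
    rw [Finset.sum_range_succ']
    have e6 : |cfo Φ (l + 1) 0 * (xs F c ω 0 - xs F c ω' 0)| = 0 := by
      rw [xs_zero, xs_zero, et, sub_self, mul_zero, abs_zero]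
    rw [e6, add_zero]
    calc ∑ k ∈ range (l : ℕ), |cfo Φ (l + 1) (k + 1) * (xs F c ω (k + 1) - xs F c ω' (k + 1))| ≤
        ∑ k ∈ range (l : ℕ), (2 : ℝ) ^ e j' l * (1 / 2 ^ J) := by
          refine Finset.sum_le_sum fun k hk => ?_
          rw [Finset.mem_range] at hk
          have e7 : ∀ ω, xs F c ω (k + 1) = F.x ω (c k) := fun ω => by
            unfold xs cx
            rw [if_neg (by omega)]
            show F.x ω (c (k + 1 - 1)) = F.x ω (c k)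
            rw [Nat.add_sub_cancel]
          rw [abs_mul, e7, e7]
          exact mul_le_mul (hlp (k + 1) (by omega) (by omega)) (hX k (by omega)) (abs_nonneg _)
            (by positivity)
      _ = (l : ℕ) * ((2 : ℝ) ^ e j' l * (1 / 2 ^ J)) := by
          rw [Finset.sum_const, Finset.card_range, nsmul_eq_mul]
      _ ≤ n * ((2 : ℝ) ^ e j' l * (1 / 2 ^ J)) := by
          refine mul_le_mul_of_nonneg_right ?_ (by positivity)
          exact_mod_cast hl.le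
      _ = n * 2 ^ e j' l * (1 / 2 ^ J) := by ring
  have b2 : |τ * (vlo F c Φ (l + 1) ω - vlo F c Φ (l + 1) ω')| ≤ 2 / 2 ^ d j' l := by
    rw [abs_mul]
    refine (mul_le_mul hτ1 hV (abs_nonneg _) (by positivity)).trans ?_
    rw [div_mul_div_comm, mul_one, ← pow_add]
    exact div_le_div_of_nonneg_left (by norm_num) (by positivity)
      (pow_le_pow_right₀ (by norm_num) (by omega))
  have b3 := hX l hl
  have b4 : (n : ℝ) * 2 ^ e j' l * (1 / 2 ^ J) ≤ n * (2 ^ x / 2 ^ d j' l) := by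
    rw [mul_assoc]
    exact mul_le_mul_of_nonneg_left p0 (by positivity)
  refine (abs_add_le _ _).trans ((add_le_add_left (abs_sub _ _) _).trans ?_)
  have e8 : (((n : ℝ) + 1) * 2 ^ x + 2) / 2 ^ d j' l = 2 ^ x / 2 ^ d j' l +
      n * (2 ^ x / 2 ^ d j' l) + 2 / 2 ^ d j' l := by ring
  rw [e8]
  linarith

/-- **The code and the heights** from the digits of the own velocities, the exponents of the slopes
depend on the column. -/
theorem hrc_entJ {F : Fam m J} {c : ℕ → Fin m} {n K w₀ w₁ z j P₀ : ℕ} {e : ℕ → ℕ → ℕ}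
    {d : ℕ → ℕ → ℕ} {W : Type} {Rf : ℕ → W → ℕ → PN} {cp : PtT F → W} {cs : LnT F → W}
    {q : F.Ω → ℝ} {A : F.Ω → Prop} (hq : IsLaw q) (hA : ∀ ω, 0 < q ω → A ω)
    (hcls : ∀ ω, A ω → cp (ptr F J ω) = cs (slam F w₁ ω))
    (hRf : ∀ j' ≤ j, ∀ v, Tr 1 (Rf j' v)) (hwJ : w₀ + j * z ≤ J)
    (hd : ∀ j' ≤ j, ∀ l < n, d j' l + e j' l ≤ J)
    (hlip : ∀ j' ≤ j, ∀ ω, A ω → ∀ l < n, ∀ k, 1 ≤ k → k ≤ l →
      |cfo (Rf j' (cs (slam F w₁ ω))) (l + 1) k| ≤ 2 ^ e j' l)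
    (hd0 : ∀ j' ≤ j, d j' 0 - (w₀ + j' * z) ≤ P₀) {θ : ℝ} (hθ : 0 ≤ θ)
    (hv : ∀ j' ≤ j, ∀ l, 1 ≤ l → l < n → CH q (fun ω => ⌊(2 : ℝ) ^ (d j' l - (w₀ + j' * z)) *
      vlo F c (Rf j' (cs (slam F w₁ ω))) (l + 1) ω⌋)
      (fun ω => (F.D P₀ ω, (F.X J ω, F.W ω))) ≤ θ) :
    CH q (fun ω => (cs (slam F w₁ ω), hts F c n K w₀ z j d Rf (fun ω => cs (slam F w₁ ω)) ω))
      (fun ω => (F.D P₀ ω, (F.X J ω, F.W ω))) ≤
      (j + 1 : ℕ) * ((n : ℝ) * (θ + 2)) +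
        (j + 1 : ℕ) * ((K + 1 : ℕ) * (n * Real.log (2 * (((n + 1) * 2 ^ 0 + 2) + 1) + 1))) := by
  obtain ⟨code, hcode⟩ : ∃ code : F.Ω → W, code = fun ω => cs (slam F w₁ ω) := ⟨_, rfl⟩
  have hce : ∀ ω, cs (slam F w₁ ω) = code ω := fun ω => by rw [hcode]
  have hcp : ∀ ω, 0 < q ω → code ω = cp (ptr F J ω) := fun ω hω => by
    rw [hcode]
    exact (hcls ω (hA ω hω)).symm
  simp only [hce] at hlip hv ⊢
  obtain ⟨Y, hY⟩ : ∃ Y : F.Ω → (Fin m → ℤ) × ((Fin m → ℤ) × (ℕ × F.ζ)),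
    Y = fun ω => (F.D P₀ ω, (F.X J ω, F.W ω)) := ⟨_, rfl⟩
  have hcY : ∀ ω ω', 0 < q ω → 0 < q ω' → Y ω = Y ω' → code ω = code ω' := by
    intro ω ω' h1 h2 h3
    rw [hY] at h3
    have h4 : ptr F J ω = ptr F J ω' := (Prod.ext_iff.1 h3).2
    rw [hcp ω h1, hcp ω' h2, h4]
  rw [← hY] at hv ⊢
  have hc1 : CH q (fun ω => (code ω, hts F c n K w₀ z j d Rf code ω)) Y ≤
      CH q (hts F c n K w₀ z j d Rf code) Y := by
    refine CH_mono_left hq.nonneg fun ω ω' h1 h2 h3 => ?_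
    obtain ⟨h4, h5⟩ := Prod.ext_iff.1 h3
    exact Prod.ext (hcY ω ω' h1 h2 h5) h4
  have hc2 := CH_le_add hq.nonneg (hts F c n K w₀ z j d Rf code)
    (vds F c n w₀ z j d Rf code) Y
  have hc3 : CH q (hts F c n K w₀ z j d Rf code) (fun ω => (vds F c n w₀ z j d Rf code ω, Y ω)) ≤
      CH q (hts F c n K w₀ z j d Rf code) (fun ω => (code ω, (fun l : Fin n => F.X J ω (c l)),
        F.T ω, vds F c n w₀ z j d Rf code ω)) := by
    refine CH_mono_cond hq.nonneg fun ω ω' h1 h2 h3 => ?_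
    obtain ⟨h4, h5⟩ := Prod.ext_iff.1 h3
    have h6 := hcY ω ω' h1 h2 h5
    simp only at h4 h5
    rw [hY] at h5
    obtain ⟨-, h7⟩ := Prod.ext_iff.1 h5
    obtain ⟨h8, h9⟩ := Prod.ext_iff.1 h7
    simp only at h8 h9
    refine Prod.ext h6 (Prod.ext ?_ (Prod.ext ?_ h4))
    · funext l
      exact congrFun h8 (c l)
    · exact (Prod.ext_iff.1 h9).1
  have hc4 := hts_fewJ (K := K) (c := c) (x := 0) hq hRf hwJ (fun j' h1 l h2 => by
    rw [Nat.add_zero]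
    exact hd j' h1 l h2) (code := code) (fun j' h1 ω h2 => hlip j' h1 ω (hA ω h2))
  have hc5 : CH q (vds F c n w₀ z j d Rf code) Y ≤ (j + 1 : ℕ) * ((n : ℝ) * (θ + 2)) := by
    refine Pool.K2S.CH_pi_le hq.nonneg Y (j + 1) (fun j' ω => vds F c n w₀ z j d Rf code ω j')
      fun j' => ?_
    refine Pool.K2S.CH_pi_le hq.nonneg Y n (fun l ω => vds F c n w₀ z j d Rf code ω j' l)
      fun l => ?_
    have hj' : (j' : ℕ) ≤ j := by omega
    have hl : (l : ℕ) < n := l.2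
    rcases Nat.eq_zero_or_pos (l : ℕ) with h0 | h0
    · have h1 : CH q (fun ω => ⌊(2 : ℝ) ^ (d j' l - (w₀ + j' * z)) *
          vlo F c (Rf j' (code ω)) (l + 1) ω⌋) Y ≤ Real.log (2 * (1 + 1) + 1) := by
        refine near_few hq (fun ω => vlo F c (Rf j' (code ω)) (l + 1) ω) Y
          fun ω ω' h1 h2 h3 => ?_
        have h4 := hcY ω ω' h1 h2 h3
        rw [← h4]
        have h5 : F.D P₀ ω = F.D P₀ ω' := by
          rw [hY] at h3
          exact (Prod.ext_iff.1 h3).1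
        have h6 : |F.d ω (c 0) - F.d ω' (c 0)| ≤ 1 / 2 ^ P₀ :=
          near_of_fl (congrFun h5 (c 0))
        have e1 : vlo F c (Rf j' (code ω)) (l + 1) ω - vlo F c (Rf j' (code ω)) (l + 1) ω' =
            F.d ω (c 0) - F.d ω' (c 0) := by
          rw [h0]
          unfold vlo
          rw [Finset.sum_range_succ, Finset.sum_range_succ, Finset.sum_range_zero,
            Finset.sum_range_zero]
          have e2 : ∀ ω, vxs F c ω 0 = 1 := fun ω => if_pos rfl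
          rw [e2, e2]
          simp only [Nat.zero_add, Nat.sub_self]
          ring
        rw [e1]
        refine h6.trans (one_div_le_one_div_of_le (by positivity)
          (pow_le_pow_right₀ (by norm_num) ?_))
        rw [h0]
        exact hd0 j' hj'
      have h2 : Real.log (2 * (1 + 1) + 1) ≤ 2 := by
        rw [Real.log_le_iff_le_exp (by norm_num)]
        have h3 := Real.add_one_le_exp (1 : ℝ)
        have h4 : (5 : ℝ) ≤ Real.exp 2 := by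
          have e1 : Real.exp 2 = Real.exp 1 * Real.exp 1 := by
            rw [← Real.exp_add]
            norm_num
          have := Real.exp_one_gt_d9
          rw [e1]
          nlinarith
        linarith
      exact (h1.trans h2).trans (by linarith)
    · exact (hv j' hj' l h0 hl).trans (by linarith)
  refine hc1.trans (hc2.trans ?_)
  linarith [hc3.trans hc4]

/-- **The coefficients of one level of the reference charts**: the slopes of the base levels are at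
most `2 ^ (e'' + x)`, those of the level `l` are at most `2 ^ (E + X)`. -/
theorem rf_cofL {F : Fam m J} {D : GDat F} {c : ℕ → Fin m} {n w₀ z M j₀ : ℕ}
    {g₀ : ℕ → ℕ → ℕ} {G' : ℕ → PtT F → ℕ → MvPolynomial (Option (Fin m)) ℝ}
    {H' : ℕ → LnT F → ℕ → MvPolynomial (Option (Fin m)) ℝ} {S : ℝ} {W : Type}
    {cp : PtT F → W} {cs : LnT F → W} {Rf : ℕ → W → ℕ → PN} {B : F.Ω → Prop} {e' e'' : ℕ}
    {g' : ℕ → ℕ} {s x X E j l k : ℕ} (hn : 1 ≤ n) (hc : Inj c n) (hwJ : w₀ + j₀ * z ≤ J)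
    (hR : RefC D c n w₀ z M j₀ g₀ H' S cp cs Rf B) (hS : S ≤ 2 ^ s) (hj : j ≤ j₀)
    (hch : ChOK F c n (fun _ => 1) (w₀ + j * z) (w₀ + j * z) e' g' B (G' j) (H' j))
    (hch' : ChOK F c (n - 1) (fun _ => 1) (w₀ + j * z) (w₀ + j * z) e'' g' B (G' j) (H' j))
    (hx : ∀ i < n - 1, ∀ k < i, nlp g' k i ≤ x) (hX : ∀ k < l, g' k ≤ g' l + X)
    (hX₀ : ∀ k < l, g₀ j k ≤ g₀ j l + X) (hl : l < n) (hk : k < l) {ω : F.Ω} (hω : B ω)
    (htop : |cfo (Gx c n (G' j) (ptr F J ω)) (l + 1) (k + 1)| ≤ 2 ^ (E + X)) :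
    |cfo (Rf j (cs (slam F (w₀ + j₀ * z) ω))) (l + 1) (k + 1)| ≤
      2 ^ (E + rfm n e'' s x + X) := by
  have hwj : w₀ + j * z ≤ J := (Nat.add_le_add_left (Nat.mul_le_mul_right z hj) w₀).trans hwJ
  obtain ⟨σ, hσ⟩ := hR.ref j (cs (slam F (w₀ + j₀ * z) ω))
  obtain ⟨Ψ, hΨ⟩ : ∃ Ψ, Ψ = Rf j (cs (slam F (w₀ + j₀ * z) ω)) := ⟨_, rfl⟩
  obtain ⟨Φ, hΦ⟩ : ∃ Φ, Φ = Gx c n (G' j) (ptr F J ω) := ⟨_, rfl⟩
  obtain ⟨Θ, hΘ⟩ : ∃ Θ, Θ = Hx c n (w₀ + j * z) (H' j) (slam F (w₀ + j * z) ω) := ⟨_, rfl⟩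
  have tΨ : Tr 1 Ψ := by
    rw [hΨ, hσ]
    exact tr_hx hch _ _
  have tΦ : Tr 1 Φ := by rw [hΦ]; exact tr_gx hch _
  have tΘ : Tr 1 Θ := by rw [hΘ]; exact tr_hx hch _ _
  have hc' : Inj c (n - 1) := fun a ha b hb h => hc a (by omega) b (by omega) h
  -- the lower levels of the chart at the point
  have lowΦ : ∀ i ≤ n - 1, ∀ k, 1 ≤ k → k < i → |cfo Φ i k| ≤ 2 ^ (e'' + x) := by
    intro i hi k k1 k2
    obtain ⟨i, rfl⟩ : ∃ i', i = i' + 1 := ⟨i - 1, by omega⟩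
    obtain ⟨k, rfl⟩ : ∃ k', k = k' + 1 := ⟨k - 1, by omega⟩
    have h1 := cf_gx hc' hch' hω (l := i) (k := k) (by omega) (by omega)
    have e1 : Gx c (n - 1) (G' j) (ptr F J ω) (i + 1) = Φ (i + 1) := by
      rw [hΦ]
      have h2 : Gx c (n - 1) (G' j) (ptr F J ω) (i + 1) = tr c i (G' j (ptr F J ω) i) :=
        sy_succ (by omega)
      have h3 : Gx c n (G' j) (ptr F J ω) (i + 1) = tr c i (G' j (ptr F J ω) i) :=
        sy_succ (by omega)
      rw [h2, h3]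
    have e2 : cfo (Gx c (n - 1) (G' j) (ptr F J ω)) (i + 1) (k + 1) = cfo Φ (i + 1) (k + 1) := by
      unfold cfo
      rw [e1]
    rw [← e2]
    refine h1.trans (pow_le_pow_right₀ (by norm_num) ?_)
    have := hx i (by omega) k (by omega)
    omega
  have hgl : ∀ i < n - 1, ∀ k < i, g' k ≤ g' i + x := by
    intro i hi k hk
    have h1 := hx i hi k hk
    unfold nlp at h1
    have h2 : g' k ≤ (Finset.Icc k i).sup g' :=
      Finset.le_sup (f := g') (Finset.mem_Icc.2 ⟨le_rfl, hk.le⟩)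
    omega
  have hnb : NbP n (Et (F.t ω)) (gl g') (2 ^ 0) Φ Θ := by
    rw [pow_zero, hΦ, hΘ]
    exact nb_gh hwj hc hch hω
  -- the chart at the point and the chart of the line
  have near1 : ∀ i ≤ n - 1, ∀ k, 1 ≤ k → k < i →
      |cfo Φ i k - cfo Θ i k| ≤ 2 ^ (pwn n (e'' + x) + x + 1) := by
    intro i hi k k1 k2
    have h1 := nb_cf (P := Et (F.t ω)) (q := e'' + x) (s := 0) (x := x) (l := i)
      (t₀ := F.t ω) hn tΦ tΘ rfl hnb (by omega) (by omega)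
      (fun i' hi' k' k1' k2' => lowΦ i' (by omega) k' k1' k2')
      (fun k' k1' k2' => by
        have h2 := hgl (i - 1) (by omega) (k' - 1) (by omega)
        exact h2) k k1 k2
    rwa [Nat.add_zero] at h1
  have near1' : |cfo Φ (l + 1) (k + 1) - cfo Θ (l + 1) (k + 1)| ≤
      2 ^ (pwn n (e'' + x) + X + 1) := by
    have h1 := nb_cf (P := Et (F.t ω)) (q := e'' + x) (s := 0) (x := X) (l := l + 1)
      (t₀ := F.t ω) hn tΦ tΘ rfl hnb (by omega) (by omega)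
      (fun i' hi' k' k1' k2' => lowΦ i' (by omega) k' k1' k2')
      (fun k' k1' k2' => by
        have h2 := hX (k' - 1) (by omega)
        exact h2) (k + 1) (by omega) (by omega)
    rwa [Nat.add_zero] at h1
  have lowΘ : ∀ i ≤ n - 1, ∀ k, 1 ≤ k → k < i →
      |cfo Θ i k| ≤ 2 ^ (pwn n (e'' + x) + e'' + x + 2) := by
    intro i hi k k1 k2
    have h1 := near1 i hi k k1 k2
    have h2 := lowΦ i hi k k1 k2
    have e1 : cfo Θ i k = cfo Φ i k - (cfo Φ i k - cfo Θ i k) := by ring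
    rw [e1]
    refine (abs_sub _ _).trans ((add_le_add h2 h1).trans ?_)
    have h3 : (2 : ℝ) ^ (e'' + x) ≤ 2 ^ (pwn n (e'' + x) + e'' + x + 1) :=
      pow_le_pow_right₀ (by norm_num) (by omega)
    have h4 : (2 : ℝ) ^ (pwn n (e'' + x) + x + 1) ≤ 2 ^ (pwn n (e'' + x) + e'' + x + 1) :=
      pow_le_pow_right₀ (by norm_num) (by omega)
    rw [pow_succ _ (pwn n (e'' + x) + e'' + x + 1)]
    linarith
  -- the chart of the line and the reference chart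
  have near2 : |cfo Θ (l + 1) (k + 1) - cfo Ψ (l + 1) (k + 1)| ≤
      2 ^ (pwn n (pwn n (e'' + x) + e'' + x + 2) + s + X + 1) := by
    have hnb : NbP n (Wn (tw F (w₀ + j * z) ω) (w₀ + j * z)) (fun l => g₀ j (l - 1)) (2 ^ s)
        Θ Ψ := by
      rw [hΘ, hΨ]
      exact (hR.raw j hj ω hω).mono le_rfl (fun _ h => h) hS
    exact nb_cf (q := pwn n (e'' + x) + e'' + x + 2) (s := s) (x := X) (l := l + 1)
      (t₀ := F.t ω) hn tΘ tΨ (tw_t hwj ω) hnb (by omega) (by omega)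
      (fun i' hi' k' k1' k2' => lowΘ i' (by omega) k' k1' k2')
      (fun k' k1' k2' => by
        have h2 := hX₀ (k' - 1) (by omega)
        exact h2) (k + 1) (by omega) (by omega)
  rw [← hΦ] at htop
  rw [← hΨ]
  have e1 : cfo Ψ (l + 1) (k + 1) = cfo Φ (l + 1) (k + 1) -
      ((cfo Φ (l + 1) (k + 1) - cfo Θ (l + 1) (k + 1)) +
        (cfo Θ (l + 1) (k + 1) - cfo Ψ (l + 1) (k + 1))) := by ring
  rw [e1]
  refine (abs_sub _ _).trans ((add_le_add htop ((abs_add_le _ _).trans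
    (add_le_add near1' near2))).trans ?_)
  unfold rfm
  obtain ⟨a, ha⟩ : ∃ a, a = pwn n (e'' + x) := ⟨_, rfl⟩
  rw [← ha]
  obtain ⟨b, hb⟩ : ∃ b, b = pwn n (a + e'' + x + 2) := ⟨_, rfl⟩
  rw [← hb]
  have h3 : (2 : ℝ) ^ (E + X) ≤ 2 ^ (E + (b + a + s + x + 1) + X) :=
    pow_le_pow_right₀ (by norm_num) (by omega)
  have h4 : (2 : ℝ) ^ (a + X + 1) ≤ 2 ^ (E + (b + a + s + x + 1) + X) :=
    pow_le_pow_right₀ (by norm_num) (by omega)
  have h5 : (2 : ℝ) ^ (b + s + X + 1) ≤ 2 ^ (E + (b + a + s + x + 1) + X) :=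
    pow_le_pow_right₀ (by norm_num) (by omega)
  have h6 : (2 : ℝ) ^ (E + (b + a + s + x + 3) + X) = 4 * 2 ^ (E + (b + a + s + x + 1) + X) := by
    rw [show E + (b + a + s + x + 3) + X = (E + (b + a + s + x + 1) + X) + 2 by omega, pow_add]
    norm_num
    ring
  have h7 : (0 : ℝ) < 2 ^ (E + (b + a + s + x + 1) + X) := by positivity
  rw [h6]
  linarith

/-- **The code and the heights are visible**, the target is not sorted. -/
theorem hrcT (n K : ℕ) (hn : 1 ≤ n) : ∃ C : ℝ, 1 ≤ C ∧ ∀ {m : ℕ} {S : PCl m} {C₀ : ℝ} {c : ℕ → Fin m}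
    {ϖ ζ ε κ x y γ γ₁ P P₀ E : ℝ} {b : ℕ → ℕ → ℝ} {j₀ : ℕ}, TmC S C₀ → Inj c n →
    Pool.MIC6.ActF S (c 0) → 0 ≤ ϖ → 0 < ζ → 0 < ε → 0 < κ → 0 < γ → 0 < γ₁ → 0 ≤ P → 0 < x →
    0 < y → 0 ≤ E → C * (ε + κ) * ζ ≤ x → C * (ε + κ) * ζ ≤ γ → C * y ≤ γ → P + 8 * x ≤ P₀ →
    P₀ ≤ 1 → ϖ + (j₀ + 1) * ζ + γ₁ ≤ 1 →
    (∀ j ≤ j₀, ∀ l, 1 ≤ l → l < n → ϖ + j * ζ + 2 * x ≤ b j l) →
    (∀ j ≤ j₀, |b j 0 - (ϖ + j * ζ)| ≤ x) →
    (∀ j ≤ j₀, ∀ k l, k < l → l + 1 < n → b j k ≤ b j l) →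
    (∀ j ≤ j₀, ∀ l < n, b j l + P + E + γ ≤ 1) →
    (∀ j ≤ j₀, ∀ l, 1 ≤ l → l < n →
      RepX S (c 0) (img c l) (c l) (ϖ + j * ζ) (ϖ + j₀ * ζ + γ₁) (b j l) P x) →
    ∀ h : ℝ, 0 < h → Bas S fun J F A =>
    ∀ (D : GDat F) (K' s₁ : ℕ) (sh : ℕ → ℕ) (a₀ M : ℕ) (e : ℕ → ℕ → ℕ)
      (g : ℕ → ℕ → ℕ → ℕ) (lo hi : ℕ → ℕ → ℝ) (e₀ e' e'' : ℕ → ℕ) (g₀ g' : ℕ → ℕ → ℕ)
      (G₀ G' : ℕ → PtT F → ℕ → MvPolynomial (Option (Fin m)) ℝ)
      (H₀ H' : ℕ → LnT F → ℕ → MvPolynomial (Option (Fin m)) ℝ) (W : Type) (cp : PtT F → W)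
      (cs : LnT F → W) (Rf : ℕ → W → ℕ → PN), j₀ ≤ M →
      D.Ok c n K K' s₁ sh a₀ (up ϖ J) (up ζ J) M e g A →
      BalG D.G D.H c n K M (up ϖ J) (up ζ J) lo hi e₀ g₀ G₀ H₀ A →
      (∀ j ≤ j₀, ChOK F c n (fun _ => 1) (up ϖ J + j * up ζ J) (up ϖ J + j * up ζ J) (e' j)
        (g' j) A (G' j) (H' j)) →
      (∀ j ≤ j₀, ChOK F c (n - 1) (fun _ => 1) (up ϖ J + j * up ζ J) (up ϖ J + j * up ζ J) (e'' j)
        (g' j) A (G' j) (H' j)) →
      (∀ j ≤ j₀, ∀ l < n, |(g₀ j l : ℝ) - b j l * J| ≤ κ * (ζ * J)) →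
      (∀ j ≤ j₀, ∀ l < n, |(g' j l : ℝ) - b j l * J| ≤ κ * (ζ * J)) →
      (∀ j ≤ j₀, (e' j : ℝ) ≤ (E + y) * J) → (∀ j ≤ j₀, (e'' j : ℝ) ≤ y * J) →
      RefC D c n (up ϖ J) (up ζ J) M j₀ g₀ H' (Real.exp (ε * up ζ J)) cp cs Rf A →
      CH (Pool.Agent.H49.Ent.cond F.p A True) (fun ω => (cs (slam F (up ϖ J + j₀ * up ζ J) ω),
          hts F c n K (up ϖ J) (up ζ J) j₀ (fun j l => ⌊(b j l + P) * J⌋₊) Rf
            (fun ω => cs (slam F (up ϖ J + j₀ * up ζ J) ω)) ω))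
        (fun ω => (F.D ⌊P₀ * J⌋₊ ω, (F.X J ω, F.W ω))) ≤ h * J := by
  obtain ⟨R, hR⟩ : ∃ R : ℕ, R = pwn n 1 * pwn n 1 + 5 * pwn n 1 + 3 := ⟨_, rfl⟩
  have hR3 : (3 : ℝ) ≤ R := by
    have : 3 ≤ R := by rw [hR]; omega
    exact_mod_cast this
  refine ⟨8 * R, by linarith, ?_⟩
  intro m S C₀ c ϖ ζ ε κ x y γ γ₁ P P₀ E b j₀ htm hc hact hϖ hζ hε hκ hγ hγ₁ hP hx hy hE hCx hCγ
    hCy hPP hP₀ hwin hlow h0b hmono hsz hrep h hh
  have hn0 : (0 : ℝ) < n := by exact_mod_cast hn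
  have hj0 : (0 : ℝ) ≤ j₀ := Nat.cast_nonneg _
  obtain ⟨h', hh'⟩ : ∃ h', h' = h / (4 * (j₀ + 1) * n) := ⟨_, rfl⟩
  have hh'0 : 0 < h' := by rw [hh']; positivity
  have hh'1 : (j₀ + 1) * (n * h') = h / 4 := by
    rw [hh']
    field_simp
  obtain ⟨Cst, hCst⟩ : ∃ Cst : ℝ, Cst = (j₀ + 1 : ℕ) * ((K + 1 : ℕ) *
    (n * Real.log (2 * (((n + 1) * 2 ^ 0 + 2) + 1) + 1))) := ⟨_, rfl⟩
  obtain ⟨J₁, hJ₁⟩ := exists_nat_ge ((2 + j₀ : ℝ) / γ₁)
  obtain ⟨J₂, hJ₂⟩ := exists_nat_ge ((4 * ε + 8 + 2 * j₀ : ℝ) / x)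
  obtain ⟨J₃, hJ₃⟩ := exists_nat_ge ((4 * (R * (2 * ε + 2) + 1) : ℝ) / γ)
  obtain ⟨J₄, hJ₄⟩ := exists_nat_ge ((2 * ((j₀ + 1) * (n * 2) + Cst) : ℝ) / h)
  have hvis : Bas S fun J F A => ∀ j < j₀ + 1, ∀ l < n, 1 ≤ l →
      ∀ (e : ℕ) (a : PtT F → Fin m → ℝ) (ct : PtT F → ℝ),
      ClA F A (img c l) (c l) ⌊(ϖ + j₀ * ζ + γ₁) * J⌋₊ e ⌊(b j l - (ϖ + j * ζ) - x) * J⌋₊ a ct →
      ∀ Q ≤ ⌊(b j l - (ϖ + j * ζ) + P) * J⌋₊,
      CH (Pool.Agent.H49.Ent.cond F.p A True) (fun ω => ⌊(2 : ℝ) ^ Q * (F.d ω (c l) -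
        ct (ptr F J ω) - ∑ k ∈ img c l, a (ptr F J ω) k * F.d ω k)⌋)
        (fun ω => (F.D ⌊P₀ * J⌋₊ ω, (F.X J ω, F.W ω))) ≤ h' * J := by
    refine Bas.all (j₀ + 1) fun j hj => Bas.all n fun l hl => ?_
    rcases Nat.eq_zero_or_pos l with h0 | h0
    · exact ⟨1, one_pos, 0, fun _ _ _ _ _ h1 => absurd h1 (by omega)⟩
    · have h1 := hlow j (by omega) l h0 hl
      refine Bas.mono 0 (vis_x htm hact hP hx hPP (by linarith)
        (hrep j (by omega) l h0 hl) h' hh'0) ?_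
      intro J _ F A h2 _
      exact h2
  have hpos : Bas S (fun _ F A => 0 < Pe F.p A) :=
    ⟨1, one_pos, 0, fun J _ F A hA => (htm 1 J F A one_pos hA).1⟩
  refine Bas.mono (max (max J₁ J₂) (max J₃ J₄)) (hvis.and hpos) ?_
  rintro J hJ F A ⟨hv, hA⟩ D K' s₁ sh a₀ M e g lo hi e₀ e' e'' g₀ g' G₀ G' H₀ H' W cp cs Rf hjM hD
    hb hch hch' hg0 hg' he' he'' hRf
  have j1 : (J₁ : ℝ) ≤ J := by
    exact_mod_cast ((le_max_left _ _).trans (le_max_left _ _)).trans hJ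
  have j2 : (J₂ : ℝ) ≤ J := by
    exact_mod_cast ((le_max_right _ _).trans (le_max_left _ _)).trans hJ
  have j3 : (J₃ : ℝ) ≤ J := by
    exact_mod_cast ((le_max_left _ _).trans (le_max_right _ _)).trans hJ
  have j4 : (J₄ : ℝ) ≤ J := by
    exact_mod_cast ((le_max_right _ _).trans (le_max_right _ _)).trans hJ
  have q1 := hJ₁.trans j1
  have q2 := hJ₂.trans j2
  have q3 := hJ₃.trans j3
  have q4 := hJ₄.trans j4
  rw [div_le_iff₀ hγ₁] at q1
  rw [div_le_iff₀ hx] at q2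
  rw [div_le_iff₀ hγ] at q3
  rw [div_le_iff₀ hh] at q4
  have hJ0 : (0 : ℝ) ≤ J := Nat.cast_nonneg J
  obtain ⟨z, hz⟩ : ∃ z, z = up ζ J := ⟨_, rfl⟩
  obtain ⟨w₀, hw₀⟩ : ∃ w₀, w₀ = up ϖ J := ⟨_, rfl⟩
  have hzge : ζ * J ≤ z := by rw [hz]; exact up_ge _ _
  have hzle : (z : ℝ) ≤ ζ * J + 1 := by rw [hz]; exact up_le hζ.le _
  have hwge : ϖ * J ≤ w₀ := by rw [hw₀]; exact up_ge _ _
  have hwle : (w₀ : ℝ) ≤ ϖ * J + 1 := by rw [hw₀]; exact up_le hϖ _
  rw [← hz, ← hw₀] at hD hb hRf ⊢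
  simp only [← hz, ← hw₀] at hch hch'
  have hζJ : 0 ≤ ζ * J := by positivity
  have hwj : ∀ j : ℕ, j ≤ j₀ → ((w₀ + j * z : ℕ) : ℝ) ≤ (ϖ + j * ζ) * J + 1 + j₀ := by
    intro j hj
    push_cast
    have e1 : (j : ℝ) * z ≤ j * (ζ * J + 1) := mul_le_mul_of_nonneg_left hzle (Nat.cast_nonneg _)
    have e2 : (j : ℝ) ≤ j₀ := by exact_mod_cast hj
    linarith
  have hwj' : ∀ j : ℕ, (ϖ + j * ζ) * J ≤ ((w₀ + j * z : ℕ) : ℝ) := by
    intro j
    push_cast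
    have e1 : (j : ℝ) * (ζ * J) ≤ j * z := mul_le_mul_of_nonneg_left hzge (Nat.cast_nonneg _)
    linarith
  -- the window
  have hwW : w₀ + j₀ * z ≤ ⌊(ϖ + j₀ * ζ + γ₁) * J⌋₊ := by
    refine Nat.le_floor ?_
    have := hwj j₀ le_rfl
    linarith
  have hWJ : ⌊(ϖ + j₀ * ζ + γ₁) * (J : ℝ)⌋₊ ≤ J := by
    refine Nat.floor_le_of_le ?_
    have : (ϖ + j₀ * ζ + γ₁) * (J : ℝ) ≤ 1 * J :=
      mul_le_mul_of_nonneg_right (by linarith) hJ0
    linarith
  have hwJ : w₀ + j₀ * z ≤ J := hwW.trans hWJ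
  -- the size of the loss
  obtain ⟨s, hs⟩ : ∃ s, s = ⌈2 * (ε * z)⌉₊ := ⟨_, rfl⟩
  have hz0 : (0 : ℝ) ≤ z := Nat.cast_nonneg z
  have hS : Real.exp (ε * z) ≤ 2 ^ s := by
    rw [hs]
    exact exp_le_two (by positivity)
  have hsle : (s : ℝ) ≤ 2 * ε * (ζ * J) + 2 * ε + 1 := by
    have e1 : (s : ℝ) ≤ 2 * (ε * z) + 1 := by
      rw [hs]
      exact (Nat.ceil_lt_add_one (by positivity)).le
    have e2 := mul_le_mul_of_nonneg_left hzle hε.le
    linarith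
  have f1 : 8 * R * (ε + κ) * ζ * J ≤ x * J := mul_le_mul_of_nonneg_right hCx hJ0
  have f2 : 8 * R * (ε + κ) * ζ * J ≤ γ * J := mul_le_mul_of_nonneg_right hCγ hJ0
  have f3 : 8 * R * y * J ≤ γ * J := mul_le_mul_of_nonneg_right hCy hJ0
  have f0 : 0 ≤ (ε + κ) * (ζ * J) := by positivity
  have f4 : 24 * ((ε + κ) * (ζ * J)) ≤ 8 * R * (ε + κ) * ζ * J := by
    have e1 : 8 * R * (ε + κ) * ζ * J = 8 * R * ((ε + κ) * (ζ * J)) := by ring
    rw [e1]
    exact mul_le_mul_of_nonneg_right (by linarith) f0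
  have hεJ : 0 ≤ ε * (ζ * J) := by positivity
  have hκJ : 0 ≤ κ * (ζ * J) := by positivity
  have f5 : (ε + κ) * (ζ * J) = ε * (ζ * J) + κ * (ζ * J) := by ring
  -- the own velocities
  have hTr : ∀ j ≤ j₀, ∀ v, Tr 1 (Rf j v) := by
    intro j hj v
    obtain ⟨σ, hσ⟩ := hRf.ref j v
    rw [hσ]
    exact tr_hx (hch j hj) _ _
  have hvel : ∀ j ≤ j₀, ∀ l, 1 ≤ l → l < n → ∀ ω, A ω →
      |vlo F c (Rf j (cs (slam F (w₀ + j₀ * z) ω))) (l + 1) ω| ≤
        1 / 2 ^ ⌊(b j l - (ϖ + j * ζ) - x) * J⌋₊ := by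
    intro j hj l h1 hl ω hω
    refine (ref_own hc hD hb hRf hjM hj hω (hTr j hj _) hl).trans ?_
    obtain ⟨N, hN⟩ : ∃ N, N = ⌊(b j l - (ϖ + j * ζ) - x) * (J : ℝ)⌋₊ := ⟨_, rfl⟩
    rw [← hN]
    have e1 : (N : ℝ) ≤ (b j l - (ϖ + j * ζ) - x) * J := by
      rw [hN]
      refine Nat.floor_le (mul_nonneg ?_ hJ0)
      have := hlow j hj l h1 hl
      linarith
    have e2 := hwj j hj
    have e3 := (abs_le.1 (hg0 j hj l hl)).1
    have e4 : s + (w₀ + j * z) + N ≤ g₀ j l := by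
      have e5 : ((s + (w₀ + j * z) + N : ℕ) : ℝ) ≤ g₀ j l := by
        have e6 : ((s + (w₀ + j * z) + N : ℕ) : ℝ) = s + ((w₀ + j * z : ℕ) : ℝ) + N := by
          push_cast
          ring
        rw [e6]
        linarith
      exact_mod_cast e5
    rw [div_le_div_iff₀ (by positivity) (by positivity), one_mul]
    calc Real.exp (ε * z) * 2 ^ (w₀ + j * z) * 2 ^ N ≤ 2 ^ s * 2 ^ (w₀ + j * z) * 2 ^ N := by
          gcongr
      _ = 2 ^ (s + (w₀ + j * z) + N) := by rw [pow_add _ (s + (w₀ + j * z)) N, pow_add _ s]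
      _ ≤ 2 ^ g₀ j l := pow_le_pow_right₀ (by norm_num) e4
  -- the slopes
  obtain ⟨xn, hxn⟩ : ∃ xn, xn = ⌊2 * (κ * (ζ * J))⌋₊ := ⟨_, rfl⟩
  have hxle : (xn : ℝ) ≤ 2 * (κ * (ζ * J)) := by
    rw [hxn]
    exact Nat.floor_le (by positivity)
  have hnum : ∀ (g₁ : ℕ → ℕ → ℕ), (∀ j ≤ j₀, ∀ l < n, |(g₁ j l : ℝ) - b j l * J| ≤ κ * (ζ * J)) →
      ∀ j ≤ j₀, ∀ (y : ℝ) (X : ℕ), 0 ≤ y → X = ⌊(y + 2 * (κ * ζ)) * J⌋₊ → ∀ i < n, ∀ k ≤ i,
      b j k ≤ b j i + y → g₁ j k ≤ g₁ j i + X := by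
    intro g₁ hg₁ j hj y X hy hX i hi k hk hbb
    have h2 := abs_le.1 (hg₁ j hj k (by omega))
    have h3 := abs_le.1 (hg₁ j hj i hi)
    have h4 : b j k * J ≤ (b j i + y) * J := mul_le_mul_of_nonneg_right hbb hJ0
    have hnn : 0 ≤ (y + 2 * (κ * ζ)) * (J : ℝ) := by
      have : 0 ≤ κ * ζ := by positivity
      have : 0 ≤ y + 2 * (κ * ζ) := by linarith
      positivity
    have h5 : ((g₁ j k : ℤ) : ℝ) - (g₁ j i : ℤ) ≤ (y + 2 * (κ * ζ)) * J := by
      push_cast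
      linarith [h2.2, h3.1]
    have h6 : (g₁ j k : ℤ) - g₁ j i ≤ X := by
      have h7 : (g₁ j k : ℤ) - g₁ j i ≤ ⌊(y + 2 * (κ * ζ)) * (J : ℝ)⌋ := by
        refine Int.le_floor.2 ?_
        push_cast at h5 ⊢
        exact h5
      refine h7.trans (le_of_eq ?_)
      rw [hX]
      exact (Int.natCast_floor_eq_floor hnn).symm
    omega
  have hnlp : ∀ j ≤ j₀, ∀ (y : ℝ) (X : ℕ), 0 ≤ y → X = ⌊(y + 2 * (κ * ζ)) * J⌋₊ → ∀ i < n,
      (∀ k ≤ i, b j k ≤ b j i + y) → ∀ k, nlp (g' j) k i ≤ X := by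
    intro j hj y X hy hX i hi hbb k
    unfold nlp
    have h2 : (Finset.Icc k i).sup (g' j) ≤ g' j i + X := by
      refine Finset.sup_le fun t ht => ?_
      have := Finset.mem_Icc.1 ht
      exact hnum g' hg' j hj y X hy hX i hi t this.2 (hbb t this.2)
    omega
  have hxn0 : xn = ⌊(0 + 2 * (κ * ζ)) * (J : ℝ)⌋₊ := by
    rw [hxn]
    congr 1
    ring
  -- the gap of the last level
  obtain ⟨Gp, hGp⟩ : ∃ Gp : ℕ → ℝ, Gp = fun j => max 0 (b j (n - 2) - b j (n - 1)) := ⟨_, rfl⟩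
  have hGp0 : ∀ j, 0 ≤ Gp j := fun j => by rw [hGp]; exact le_max_left _ _
  have hGpb : ∀ j ≤ j₀, ∀ k ≤ n - 1, b j k ≤ b j (n - 1) + Gp j := by
    intro j hj k hk
    rcases Nat.lt_or_ge k (n - 1) with h1 | h1
    · have h2 : b j k ≤ b j (n - 2) := by
        rcases Nat.lt_or_ge k (n - 2) with h3 | h3
        · exact hmono j hj k (n - 2) h3 (by omega)
        · have : k = n - 2 := by omega
          rw [this]
      have h3 : b j (n - 2) - b j (n - 1) ≤ Gp j := by rw [hGp]; exact le_max_right _ _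
      linarith
    · have : k = n - 1 := by omega
      rw [this]
      linarith [hGp0 j]
  have hbase : ∀ j ≤ j₀, ∀ i < n - 1, ∀ k ≤ i, b j k ≤ b j i + 0 := by
    intro j hj i hi k hk
    rw [add_zero]
    rcases Nat.lt_or_ge k i with h1 | h1
    · exact hmono j hj k i h1 (by omega)
    · have : k = i := by omega
      rw [this]
  obtain ⟨eT, heT⟩ : ∃ eT, eT = ⌊(E + γ) * (J : ℝ)⌋₊ := ⟨_, rfl⟩
  obtain ⟨eL, heL⟩ : ∃ eL : ℕ → ℕ, eL = fun j => ⌊(E + Gp j + γ) * (J : ℝ)⌋₊ := ⟨_, rfl⟩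
  have hrf : ∀ j ≤ j₀, ((rfm n (e'' j) s xn : ℕ) : ℝ) ≤ 5 / 8 * (γ * J) := by
    intro j hj
    have h2 : ((rfm n (e'' j) s xn : ℕ) : ℝ) ≤ R * (e'' j + s + xn + 1) := by
      have := rfm_le n (e'' j) s xn
      rw [← hR] at this
      exact_mod_cast this
    have h4 := he'' j hj
    have h5 : R * ((e'' j : ℝ) + s + xn + 1) ≤ R * (y * J + (2 * ε * (ζ * J) + 2 * ε + 1) +
        2 * (κ * (ζ * J)) + 1) := mul_le_mul_of_nonneg_left (by linarith) (by linarith)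
    have h6 : R * (y * J + (2 * ε * (ζ * J) + 2 * ε + 1) + 2 * (κ * (ζ * J)) + 1) =
        (8 * R * y * J) / 8 + (8 * R * (ε + κ) * ζ * J) / 4 + R * (2 * ε + 2) := by ring
    rw [h6] at h5
    linarith
  have h7y : y * J ≤ γ * J / 8 := by
    have h7 : y * J ≤ (8 * R * y * J) / 8 := by
      have : 0 ≤ y * J := by positivity
      have e1 : (8 * R * y * J) / 8 = R * (y * J) := by ring
      rw [e1]
      nlinarith
    linarith
  have hκγ : 2 * (κ * ζ) * J ≤ γ * J / 12 := by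
    have e1 : 2 * (κ * ζ) * J = 2 * (κ * (ζ * J)) := by ring
    rw [e1]
    linarith
  have hcf : ∀ j ≤ j₀, ∀ ω, A ω → ∀ l < n, ∀ k, 1 ≤ k → k ≤ l →
      |cfo (Rf j (cs (slam F (w₀ + j₀ * z) ω))) (l + 1) k| ≤
        2 ^ (if l + 1 < n then eT else eL j) := by
    intro j hj ω hω l hl k k1 k2
    obtain ⟨k, rfl⟩ : ∃ k', k = k' + 1 := ⟨k - 1, by omega⟩
    have hrfj := hrf j hj
    have h3 := he' j hj
    have h4 := he'' j hj
    have hxb : ∀ i < n - 1, ∀ k < i, nlp (g' j) k i ≤ xn := fun i hi k _ =>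
      hnlp j hj 0 xn le_rfl hxn0 i (by omega) (hbase j hj i hi) k
    have hc' : Inj c (n - 1) := fun a ha b hb h => hc a (by omega) b (by omega) h
    by_cases hln : l + 1 < n
    · rw [if_pos hln]
      have htop := cf_gx hc' (hch' j hj) hω (l := l) (k := k) (by omega) (by omega)
      have e1 : Gx c (n - 1) (G' j) (ptr F J ω) (l + 1) =
          Gx c n (G' j) (ptr F J ω) (l + 1) := by
        have h2 : Gx c (n - 1) (G' j) (ptr F J ω) (l + 1) = tr c l (G' j (ptr F J ω) l) :=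
          sy_succ (by omega)
        have h3 : Gx c n (G' j) (ptr F J ω) (l + 1) = tr c l (G' j (ptr F J ω) l) :=
          sy_succ (by omega)
        rw [h2, h3]
      have e2 : cfo (Gx c (n - 1) (G' j) (ptr F J ω)) (l + 1) (k + 1) =
          cfo (Gx c n (G' j) (ptr F J ω)) (l + 1) (k + 1) := by
        unfold cfo
        rw [e1]
      rw [e2] at htop
      have h1 := rf_cofL (s := s) (x := xn) (X := xn) (E := e'' j) hn hc hwJ hRf hS hj
        (hch j hj) (hch' j hj) hxb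
        (fun k hk => hnum g' hg' j hj 0 xn le_rfl hxn0 l hl k hk.le
          (hbase j hj l (by omega) k hk.le))
        (fun k hk => hnum g₀ hg0 j hj 0 xn le_rfl hxn0 l hl k hk.le
          (hbase j hj l (by omega) k hk.le)) hl (by omega : k < l) hω
        (htop.trans (pow_le_pow_right₀ (by norm_num)
          (Nat.add_le_add_left (hxb l (by omega) k (by omega)) _)))
      refine h1.trans (pow_le_pow_right₀ (by norm_num) ?_)
      rw [heT]
      refine Nat.le_floor ?_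
      push_cast
      have h9 : (E + γ) * J = E * J + γ * J := by ring
      have h10 : 0 ≤ γ * J := by positivity
      have h11 : 0 ≤ E * J := by positivity
      have h12 : 2 * (κ * (ζ * J)) = 2 * (κ * ζ) * J := by ring
      rw [h9]
      linarith
    · rw [if_neg hln]
      have hl1 : l = n - 1 := by omega
      obtain ⟨X, hX⟩ : ∃ X, X = ⌊(Gp j + 2 * (κ * ζ)) * (J : ℝ)⌋₊ := ⟨_, rfl⟩
      have hnn : 0 ≤ (Gp j + 2 * (κ * ζ)) * (J : ℝ) := by
        have := hGp0 j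
        positivity
      have hXle : (X : ℝ) ≤ Gp j * J + 2 * (κ * ζ) * J := by
        rw [hX]
        refine (Nat.floor_le hnn).trans (le_of_eq ?_)
        ring
      have hbl : ∀ k ≤ l, b j k ≤ b j l + Gp j := by
        rw [hl1]
        exact hGpb j hj
      have htop := cf_gx hc (hch j hj) hω (l := l) (k := k) hl (by omega)
      have h1 := rf_cofL (s := s) (x := xn) (X := X) (E := e' j) hn hc hwJ hRf hS hj
        (hch j hj) (hch' j hj) hxb
        (fun k hk => hnum g' hg' j hj (Gp j) X (hGp0 j) hX l hl k hk.le (hbl k hk.le))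
        (fun k hk => hnum g₀ hg0 j hj (Gp j) X (hGp0 j) hX l hl k hk.le (hbl k hk.le)) hl
        (by omega : k < l) hω
        (htop.trans (pow_le_pow_right₀ (by norm_num)
          (Nat.add_le_add_left (hnlp j hj (Gp j) X (hGp0 j) hX l hl hbl k) _)))
      refine h1.trans (pow_le_pow_right₀ (by norm_num) ?_)
      rw [heL]
      refine Nat.le_floor ?_
      push_cast
      have h8 : (E + y) * J = E * J + y * J := by ring
      have h9 : (E + Gp j + γ) * J = E * J + Gp j * J + γ * J := by ring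
      have h10 : 0 ≤ γ * J := by positivity
      rw [h9]
      rw [h8] at h3
      linarith
  -- the assembly
  have hq : IsLaw (Pool.Agent.H49.Ent.cond F.p A True) := isLaw_cond F.isLaw hA
  have key := hrc_entJ (c := c) (n := n) (K := K) (w₀ := w₀) (w₁ := w₀ + j₀ * z) (z := z) (j := j₀)
    (P₀ := ⌊P₀ * (J : ℝ)⌋₊)
    (e := fun j l => if l = 0 then 0 else if l + 1 < n then eT else eL j)
    (d := fun j l => ⌊(b j l + P) * (J : ℝ)⌋₊) (Rf := Rf) (cp := cp) (cs := cs)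
    (A := A) hq (fun ω hω => cond_supp hω) hRf.cls hTr hwJ
    (fun j hj l hl => by
      show ⌊(b j l + P) * (J : ℝ)⌋₊ +
        (if l = 0 then 0 else if l + 1 < n then eT else eL j) ≤ J
      have h1 := mul_le_mul_of_nonneg_right (hsz j hj l hl) hJ0
      have h10 : 0 ≤ γ * J := by positivity
      have h11 : 0 ≤ E * J := by positivity
      by_cases h0 : l = 0
      · rw [if_pos h0, Nat.add_zero]
        refine Nat.floor_le_of_le ?_
        linarith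
      · have h2 := hlow j hj l (by omega) hl
        have h3 : 0 ≤ b j l + P := by
          have : 0 ≤ (j : ℝ) * ζ := by positivity
          linarith
        have h4 : (⌊(b j l + P) * (J : ℝ)⌋₊ : ℝ) ≤ (b j l + P) * J :=
          Nat.floor_le (by positivity)
        rw [if_neg h0]
        by_cases hln : l + 1 < n
        · rw [if_pos hln]
          have h5 : (eT : ℝ) ≤ (E + γ) * J := by
            rw [heT]
            exact Nat.floor_le (by positivity)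
          have h6 : ((⌊(b j l + P) * (J : ℝ)⌋₊ + eT : ℕ) : ℝ) ≤ J := by
            push_cast
            linarith
          exact_mod_cast h6
        · rw [if_neg hln]
          have hl1 : l = n - 1 := by omega
          have hG0 := hGp0 j
          have h5 : (eL j : ℝ) ≤ (E + Gp j + γ) * J := by
            rw [heL]
            exact Nat.floor_le (by positivity)
          have h8 : b j l + P + E + Gp j + γ ≤ 1 := by
            rcases le_or_gt (b j (n - 2) - b j (n - 1)) 0 with h9 | h9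
            · have : Gp j = 0 := by
                rw [hGp]
                exact max_eq_left h9
              rw [this]
              linarith [hsz j hj l hl]
            · have : Gp j = b j (n - 2) - b j (n - 1) := by
                rw [hGp]
                exact max_eq_right h9.le
              rw [this, hl1]
              linarith [hsz j hj (n - 2) (by omega)]
          have h6 : ((⌊(b j l + P) * (J : ℝ)⌋₊ + eL j : ℕ) : ℝ) ≤ J := by
            push_cast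
            have h9 := mul_le_mul_of_nonneg_right h8 hJ0
            linarith
          exact_mod_cast h6)
    (fun j hj ω hω l hl k k1 k2 => by
      show _ ≤ 2 ^ (if l = 0 then 0 else if l + 1 < n then eT else eL j)
      rw [if_neg (by omega)]
      exact hcf j hj ω hω l hl k k1 k2)
    (fun j hj => by
      show ⌊(b j 0 + P) * (J : ℝ)⌋₊ - (w₀ + j * z) ≤ ⌊P₀ * (J : ℝ)⌋₊
      rcases Nat.lt_or_ge (w₀ + j * z) ⌊(b j 0 + P) * (J : ℝ)⌋₊ with h1 | h1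
      · refine Nat.le_floor ?_
        rw [Nat.cast_sub h1.le]
        have h2 : 0 ≤ (b j 0 + P) * (J : ℝ) := by
          by_contra hcon
          rw [Nat.floor_of_nonpos (not_le.1 hcon).le] at h1
          omega
        have h3 := Nat.floor_le h2
        have h4 := hwj' j
        have h5 := (abs_le.1 (h0b j hj)).2
        have h6 : (b j 0 + P) * (J : ℝ) ≤ (ϖ + j * ζ) * J + (P + x) * J := by
          have := mul_le_mul_of_nonneg_right (show b j 0 + P ≤ (ϖ + j * ζ) + (P + x) by linarith)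
            hJ0
          linarith
        have h7 : (P + x) * (J : ℝ) ≤ P₀ * J := mul_le_mul_of_nonneg_right (by linarith) hJ0
        linarith
      · rw [Nat.sub_eq_zero_of_le h1]
        exact Nat.zero_le _)
    (θ := h' * J) (by positivity)
    (fun j hj l h1 hl => by
      obtain ⟨e₁, he₁⟩ := ref_cla (cp := cp) (cs := cs) (R := Rf j) hc hRf.cls hwW hWJ hl
        (hvel j hj l h1 hl)
      have h2 := hv j (by omega) l hl h1 e₁ _ _ he₁ (⌊(b j l + P) * (J : ℝ)⌋₊ - (w₀ + j * z)) (by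
        rcases Nat.lt_or_ge (w₀ + j * z) ⌊(b j l + P) * (J : ℝ)⌋₊ with h3 | h3
        · refine Nat.le_floor ?_
          rw [Nat.cast_sub h3.le]
          have h2 : 0 ≤ (b j l + P) * (J : ℝ) := by
            by_contra hcon
            rw [Nat.floor_of_nonpos (not_le.1 hcon).le] at h3
            omega
          have h4 := Nat.floor_le h2
          have h5 := hwj' j
          have h6 : (b j l - (ϖ + j * ζ) + P) * (J : ℝ) = (b j l + P) * J - (ϖ + j * ζ) * J := by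
            ring
          rw [h6]
          linarith
        · rw [Nat.sub_eq_zero_of_le h3]
          exact Nat.zero_le _)
      refine le_trans (CH_mono_left hq.nonneg fun ω ω' h3 h4 h5 => ?_) h2
      have h6 := (Prod.ext_iff.1 h5).1
      simp only at h6 ⊢
      rw [vlo_cfa hc hl, vlo_cfa hc hl, hRf.cls ω (cond_supp h3), hRf.cls ω' (cond_supp h4)] at h6
      exact h6)
  refine key.trans ?_
  rw [← hCst]
  push_cast
  have h1 : ((j₀ : ℝ) + 1) * (n * (h' * J + 2)) = (j₀ + 1) * (n * h') * J + (j₀ + 1) * (n * 2) := by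
    ring
  rw [h1, hh'1]
  have h2 : 2 * (((j₀ : ℝ) + 1) * (n * 2) + Cst) ≤ h * J := by linarith
  have h3 : 0 ≤ h * J := by positivity
  linarith

end Pool.OWN72
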