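import Pool.Agent.H21.HRC.Cof
import Pool.Agent.H40.ISO.Tbk
import Pool.Agent.H72.OWN.Rep2

/-!
# Own velocities over reference charts as affine closed labels
-/

set_option autoImplicit false

namespace Pool.OWN72

open Finset MvPolynomial
open Pool.Agent.H49.Ent Pool.Agent.H32.Dense Pool.STK Pool.KS3 Pool.KA Pool.KSAT Pool.PB Pool.GEN
open Pool.K2S Pool.S6C Pool.STAT Pool.STAT.CLO Pool.STAT.Glu Pool.STAT.OKI

variable {m J : ℕ}

/-- **The own velocity over the reference charts is small.** -/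
theorem ref_own {F : Fam m J} {D : GDat F} {c : ℕ → Fin m} {n K K' s₁ : ℕ} {sh : ℕ → ℕ}
    {a₀ w₀ z M j₀ : ℕ} {e : ℕ → ℕ → ℕ} {g : ℕ → ℕ → ℕ → ℕ} {lo hi : ℕ → ℕ → ℝ} {e₀ : ℕ → ℕ}
    {g₀ : ℕ → ℕ → ℕ} {A : F.Ω → Prop} {G₀ : ℕ → PtT F → ℕ → MvPolynomial (Option (Fin m)) ℝ}
    {H₀ H' : ℕ → LnT F → ℕ → MvPolynomial (Option (Fin m)) ℝ} {S : ℝ} {W : Type}
    {cp : PtT F → W} {cs : LnT F → W} {Rf : ℕ → W → ℕ → PN} (hc : Inj c n)
    (hD : D.Ok c n K K' s₁ sh a₀ w₀ z M e g A)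
    (hb : BalG D.G D.H c n K M w₀ z lo hi e₀ g₀ G₀ H₀ A)
    (hR : RefC D c n w₀ z M j₀ g₀ H' S cp cs Rf A) (hjM : j₀ ≤ M) {j : ℕ} (hj : j ≤ j₀)
    {ω : F.Ω} (hω : A ω) (hT : Tr 1 (Rf j (cs (slam F (w₀ + j₀ * z) ω)))) {l : ℕ} (hl : l < n) :
    |vlo F c (Rf j (cs (slam F (w₀ + j₀ * z) ω))) (l + 1) ω| ≤
      S * 2 ^ (w₀ + j * z) / 2 ^ g₀ j l := by
  obtain ⟨w, hw⟩ : ∃ w, w = w₀ + j * z := ⟨_, rfl⟩
  obtain ⟨Ψ, hΨ⟩ : ∃ Ψ, Ψ = Rf j (cs (slam F (w₀ + j₀ * z) ω)) := ⟨_, rfl⟩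
  have hown : ∀ l < n, ∀ t, ohg F c w₀ (Sy D c n w₀ z 0 j ω) t (l + 1) ω = 0 := by
    intro l hl t
    have h1 : D.H 0 j (slam F (w₀ + j * z) ω) l =
        Hno (c l) (fun s => H₀ j s l) (slam F (w₀ + j * z) ω) :=
      congrFun (congrFun (hb.eqH 0 (Nat.zero_le _) j (hj.trans hjM)) (slam F (w₀ + j * z) ω)) l
    have h2 := own_hno hc ((hD.chn 0 (Nat.zero_le _) j (hj.trans hjM)).depH
      (slam F (w₀ + j * z) ω)) ((hb.ball j (hj.trans hjM)).depH (slam F (w₀ + j * z) ω))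
      (w₀ + j * z) hl h1 t
    exact h2
  have pw : (0 : ℝ) < 2 ^ w := by positivity
  have pg : (0 : ℝ) < 2 ^ g₀ j l := by positivity
  have key : ∀ t, Wn (tw F w ω) w t → |ohg F c w₀ Ψ t (l + 1) ω| ≤ S / 2 ^ g₀ j l := by
    intro t ht
    have h0 := hR.near 0 (Nat.zero_le _) j hj ω hω (l + 1) (by omega) (by omega)
      (ptt (pc c (slam F w₀ ω)) t) ⟨by
        have : ptt (pc c (slam F w₀ ω)) t 0 = t := by
          unfold ptt
          rw [pc_zero, Polynomial.eval_X]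
        rw [this, ← hw]
        exact ht, fun k k1 k2 => by
          obtain ⟨k, rfl⟩ : ∃ k', k = k' + 1 := ⟨k - 1, by omega⟩
          have h3 := hown k (by omega) t
          unfold ohg at h3
          rw [h3, abs_zero]
          positivity⟩
    rw [← hΨ] at h0
    have h3 := hown l hl t
    unfold ohg at h3 ⊢
    have e1 : ptt (pc c (slam F w₀ ω)) t (l + 1) - eval (ptt (pc c (slam F w₀ ω)) t) (Ψ (l + 1)) =
        (ptt (pc c (slam F w₀ ω)) t (l + 1) - eval (ptt (pc c (slam F w₀ ω)) t)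
          (Sy D c n w₀ z 0 j ω (l + 1))) + (eval (ptt (pc c (slam F w₀ ω)) t)
          (Sy D c n w₀ z 0 j ω (l + 1)) - eval (ptt (pc c (slam F w₀ ω)) t) (Ψ (l + 1))) := by
      ring
    rw [e1, h3, zero_add]
    exact h0
  rw [← hΨ] at hT
  rw [← hΨ, ← hw]
  have hp : (0 : ℝ) < 1 / 2 ^ w := by positivity
  have k1 := key (tw F w ω + 1 / 2 ^ w) (by
    unfold Wn
    rw [add_sub_cancel_left, abs_of_pos hp])
  have k2 := key (tw F w ω - 1 / 2 ^ w) (by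
    unfold Wn
    rw [sub_sub_cancel_left, abs_neg, abs_of_pos hp])
  rw [ohg_aff hT _ (by omega)] at k1 k2
  obtain ⟨a, ha⟩ : ∃ a, a = F.x ω (c (l + 1 - 1)) - (coeff 0 (Ψ (l + 1)) +
    ∑ k ∈ range (l + 1), cfo Ψ (l + 1) k * xs F c ω k) := ⟨_, rfl⟩
  obtain ⟨u, hu⟩ : ∃ u, u = vlo F c Ψ (l + 1) ω := ⟨_, rfl⟩
  rw [← ha, ← hu] at k1 k2
  rw [← hu]
  have h3 : |2 * (1 / 2 ^ w) * u| ≤ 2 * (S / 2 ^ g₀ j l) := by
    have e2 : 2 * (1 / 2 ^ w) * u = (a + (tw F w ω + 1 / 2 ^ w - F.t ω) * u) -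
        (a + (tw F w ω - 1 / 2 ^ w - F.t ω) * u) := by ring
    rw [e2]
    refine (abs_sub _ _).trans ?_
    linarith
  rw [abs_mul, abs_of_pos (by positivity : (0 : ℝ) < 2 * (1 / 2 ^ w)), mul_assoc] at h3
  have h4 : 1 / 2 ^ w * |u| ≤ S / 2 ^ g₀ j l := by linarith
  rw [le_div_iff₀ pg]
  rw [le_div_iff₀ pg] at h4
  have h5 : |u| * 2 ^ g₀ j l = 2 ^ w * (1 / 2 ^ w * |u| * 2 ^ g₀ j l) := by
    field_simp
  rw [h5]
  calc (2 : ℝ) ^ w * (1 / 2 ^ w * |u| * 2 ^ g₀ j l) ≤ 2 ^ w * S :=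
        mul_le_mul_of_nonneg_left h4 pw.le
    _ = S * 2 ^ w := by ring

/-- The coefficients over the coordinates of the chain. -/
noncomputable def cfa (c : ℕ → Fin m) (l : ℕ) (Φ : ℕ → PN) (k : Fin m) : ℝ :=
  ∑ i ∈ range l, if c i = k then cfo Φ (l + 1) (i + 1) else 0

theorem cfa_c {c : ℕ → Fin m} {n l : ℕ} (hc : Inj c n) (hl : l < n) (Φ : ℕ → PN) {i : ℕ}
    (hi : i < l) : cfa c l Φ (c i) = cfo Φ (l + 1) (i + 1) := by
  unfold cfa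
  rw [Finset.sum_eq_single_of_mem i (Finset.mem_range.2 hi)]
  · rw [if_pos rfl]
  · intro b hb hbi
    rw [Finset.mem_range] at hb
    rw [if_neg]
    intro h
    exact hbi (hc b (by omega) i (by omega) h)

/-- The velocity over the chart. -/
theorem vlo_cfa {F : Fam m J} {c : ℕ → Fin m} {n l : ℕ} (hc : Inj c n) (hl : l < n)
    (Φ : ℕ → PN) (ω : F.Ω) : F.d ω (c l) - cfo Φ (l + 1) 0 -
      ∑ k ∈ img c l, cfa c l Φ k * F.d ω k = vlo F c Φ (l + 1) ω := by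
  classical
  have h1 : ∑ k ∈ img c l, cfa c l Φ k * F.d ω k =
      ∑ i ∈ range l, cfo Φ (l + 1) (i + 1) * F.d ω (c i) := by
    unfold img
    rw [Finset.sum_image]
    · refine Finset.sum_congr rfl fun i hi => ?_
      rw [cfa_c hc hl Φ (Finset.mem_range.1 hi)]
    · intro a ha b hb h
      have ha' := Finset.mem_range.1 (Finset.mem_coe.1 ha)
      have hb' := Finset.mem_range.1 (Finset.mem_coe.1 hb)
      exact hc a (by omega) b (by omega) h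
  unfold vlo
  rw [h1, Finset.sum_range_succ']
  have e1 : vxs F c ω 0 = 1 := if_pos rfl
  have e2 : ∀ i, vxs F c ω (i + 1) = F.d ω (c i) := fun i => by
    unfold vxs
    rw [if_neg (by omega), Nat.add_sub_cancel]
  rw [e1, Nat.add_sub_cancel]
  simp only [e2]
  ring

/-- Finitely many numbers are bounded. -/
theorem ex_bd {Ω : Type} [Fintype Ω] (s : Finset (Fin m)) (a : Ω → Fin m → ℝ) (b : Ω → ℝ) :
    ∃ e : ℕ, ∀ ω, (∀ k ∈ s, |a ω k| ≤ 2 ^ e) ∧ |b ω| ≤ 2 ^ e := by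
  classical
  obtain ⟨B, hB⟩ : ∃ B, B = ∑ ω : Ω, (∑ k ∈ s, |a ω k| + |b ω|) := ⟨_, rfl⟩
  obtain ⟨e, he⟩ := exists_nat_ge B
  have h1 : (e : ℝ) ≤ 2 ^ e := by exact_mod_cast Nat.lt_two_pow_self.le
  refine ⟨e, fun ω => ?_⟩
  have h0 : ∀ ω : Ω, 0 ≤ ∑ k ∈ s, |a ω k| + |b ω| := fun ω =>
    add_nonneg (Finset.sum_nonneg fun _ _ => abs_nonneg _) (abs_nonneg _)
  have h2 : ∑ k ∈ s, |a ω k| + |b ω| ≤ B := by
    rw [hB]
    exact Finset.single_le_sum (f := fun ω => ∑ k ∈ s, |a ω k| + |b ω|) (fun ω _ => h0 ω)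
      (Finset.mem_univ ω)
  have h3 : 0 ≤ ∑ k ∈ s, |a ω k| := Finset.sum_nonneg fun _ _ => abs_nonneg _
  refine ⟨fun k hk => ?_, ?_⟩
  · have h4 : |a ω k| ≤ ∑ k ∈ s, |a ω k| :=
      Finset.single_le_sum (f := fun k => |a ω k|) (fun _ _ => abs_nonneg _) hk
    have := abs_nonneg (b ω)
    linarith
  · linarith

/-- **The charts of the code as affine closed labels.** -/
theorem ref_cla {F : Fam m J} {c : ℕ → Fin m} {n : ℕ} {W : Type} {A : F.Ω → Prop}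
    {cp : PtT F → W} {cs : LnT F → W} {R : W → ℕ → PN} {w₁ w M : ℕ} (hc : Inj c n)
    (hcls : ∀ ω, A ω → cp (ptr F J ω) = cs (slam F w₁ ω)) (hw : w₁ ≤ w) (hwJ : w ≤ J) {l : ℕ}
    (hl : l < n) (hv : ∀ ω, A ω → |vlo F c (R (cs (slam F w₁ ω))) (l + 1) ω| ≤ 1 / 2 ^ M) :
    ∃ e : ℕ, ClA F A (img c l) (c l) w e M (fun p k => cfa c l (R (cp p)) k)
      (fun p => cfo (R (cp p)) (l + 1) 0) := by
  obtain ⟨e, he⟩ := ex_bd (img c l) (fun (ω : F.Ω) k => cfa c l (R (cp (ptr F J ω))) k)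
    (fun ω => cfo (R (cp (ptr F J ω))) (l + 1) 0)
  refine ⟨e, ⟨fun ω hω => ⟨(he ω).1, (he ω).2, ?_⟩, fun k _ => ?_, ?_⟩⟩
  · rw [vlo_cfa hc hl, hcls ω hω]
    exact hv ω hω
  · refine Cl1.win (w := w₁) ⟨fun s => cfa c l (R (cs s)) k, fun ω hω => ?_⟩ hw hwJ
    show cfa c l (R (cp (ptr F J ω))) k = _
    rw [hcls ω hω]
  · refine Cl1.win (w := w₁) ⟨fun s => cfo (R (cs s)) (l + 1) 0, fun ω hω => ?_⟩ hw hwJ
    show cfo (R (cp (ptr F J ω))) (l + 1) 0 = _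
    rw [hcls ω hω]

end Pool.OWN72
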